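import Pool.Agent.Helper78.UF.Defs

/-!
# Univariate factorisation over `ℚ`: the parameters, and the spaces in which the lists live
-/

set_option autoImplicit false

namespace Pool.Agent.Helper78.UF

/-- the vector of an integer list in `ℤ ^ m` -/
def zvec (m : ℕ) (l : List ℤ) : Fin m → ℤ := fun i => l.getD i 0

/-- the lattice spanned by the rows -/
def lat (m : ℕ) (B : List (List ℤ)) : Submodule ℤ (Fin m → ℤ) :=
  Submodule.span ℤ {v | ∃ l ∈ B, v = zvec m l}

/-- the vector of a list in euclidean space -/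
noncomputable def evec (m : ℕ) (l : List ℤ) : EuclideanSpace ℝ (Fin m) :=
  WithLp.toLp 2 (fun i => ((l.getD i 0 : ℤ) : ℝ))

/-- the vector of a rational list in euclidean space -/
noncomputable def qvec (m : ℕ) (l : List ℚ) : EuclideanSpace ℝ (Fin m) :=
  WithLp.toLp 2 (fun i => ((l.getD i 0 : ℚ) : ℝ))

section
open scoped RealInnerProductSpace
variable {V : Type*} [NormedAddCommGroup V] [InnerProductSpace ℝ V]

/-- the `k`-th Gram–Schmidt vector of a sequence -/
noncomputable def gs (v : ℕ → V) (k : ℕ) : V := InnerProductSpace.gramSchmidt ℝ v k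

/-- the determinant of the Gram matrix of the first `k` vectors of a sequence -/
noncomputable def gd (v : ℕ → V) (k : ℕ) : ℝ :=
  Matrix.det (Matrix.of fun i j : Fin k => ⟪v i, v j⟫)

end

/-- a number of rounds that suffices for `n` vectors of square length at most `2 ^ x` -/
def lllT (n x : ℕ) : ℕ := 3 * x * (n + 1) ^ 2 + 1

/-- a clamp that suffices for `n` vectors of `ℤ ^ m` of square length at most `2 ^ x` -/
def lllK (n m x : ℕ) : ℕ := 1000 * (n + m + 2) ^ 4 * (x + n + 1)

/-! Parameters for `f` of degree `n` with `∑ |f_i| ≤ 2 ^ e`. -/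

def c0 (n e : ℕ) : ℕ := 4 + 2 * n + (e + 1) * n
def b1 (n e : ℕ) : ℕ := e + n + (e + 1) * n
def s0 (n e : ℕ) : ℕ := 2 * (b1 n e + c0 n e) + 1
def tau (n e : ℕ) : ℕ := 2 * n + s0 n e
/-- nonzero values `g(α)` are at least `2 ^ (1 - pU)` -/
def pU (n e : ℕ) : ℕ := e * n + (tau n e + e * n) * n + 1
/-- the precision -/
def pW (n e : ℕ) : ℕ := pU n e + tau n e + c0 n e + 1
/-- the threshold for the square length of the short vector -/
def pS (n e : ℕ) : ℕ := n + s0 n e + 2 * pW n e * n
/-- square length of the vectors of the lattice -/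
def pX (n e : ℕ) : ℕ := 2 * (pW n e * n + pW n e + (e + 1) * n) + 1

end Pool.Agent.Helper78.UF
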