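import Mathlib
import Pool.Agent.PolyTime.Classes

/-!
# Univariate factorisation over `ℚ`: the algorithm

Kannan–Lenstra–Lovász: approximate the complex roots of `f` by an exclusion quadtree, find the
minimal polynomial of a root by lattice reduction, read off the multiplicity from the Taylor
coefficients.  Polynomials are coefficient lists, low degree first.
-/

set_option autoImplicit false

namespace Pool.Agent.Helper78.UF

open Pool.Agent.PolyTime

/-! ### clamped folds: they are polynomial time whatever the input is -/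

section
variable {α β σ : Type} [PEnc σ]

/-- `x` if its encoding has length at most `K`, else `d` -/
def clamp (K : ℕ) (d x : σ) : σ := bif decide (size x ≤ K) then x else d

/-- left fold in which every intermediate result is clamped to size `K` -/
def foldlC (K : ℕ) (d : σ) (h : σ → β → σ) (s : σ) (l : List β) : σ :=
  l.foldl (fun s b => clamp K d (h s b)) s

/-- iteration in which every intermediate result is clamped to size `K` -/
def iterC (K : ℕ) (d : σ) (f : σ → σ) (n : ℕ) (s : σ) : σ := (fun x => clamp K d (f x))^[n] s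

end

/-! ### polynomials and Gaussian integers -/

/-- the polynomial with the coefficient list `l`, low degree first -/
noncomputable def toPoly : List ℤ → Polynomial ℤ
  | [] => 0
  | a :: l => Polynomial.C a + Polynomial.X * toPoly l

/-- remove the zeros at the end -/
def trim (l : List ℤ) : List ℤ := (l.reverse.dropWhile (fun a => decide (a = 0))).reverse

def gmul (x y : ℤ × ℤ) : ℤ × ℤ := (x.1 * y.1 - x.2 * y.2, x.1 * y.2 + x.2 * y.1)

def gadd (x y : ℤ × ℤ) : ℤ × ℤ := (x.1 + y.1, x.2 + y.2)

/-- the complex number of a Gaussian integer -/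
noncomputable def toC (x : ℤ × ℤ) : ℂ := ⟨x.1, x.2⟩

/-- `|Re| + |Im|` -/
def n1 (x : ℤ × ℤ) : ℕ := x.1.natAbs + x.2.natAbs

/-- multiply by `X + g` and add the constant `a` -/
def shiftStep (g : ℤ × ℤ) (a : ℤ) (acc : List (ℤ × ℤ)) : List (ℤ × ℤ) :=
  List.zipWith gadd ((a, 0) :: acc) (acc.map (gmul g) ++ [(0, 0)])

/-- the coefficients of `f (X + g)` -/
def taylor (g : ℤ × ℤ) (l : List ℤ) : List (ℤ × ℤ) := l.foldr (fun a acc => shiftStep g a acc) []

/-- `∑ |c_k|_1 2 ^ k` -/
def wsum (l : List (ℤ × ℤ)) : ℕ := l.foldr (fun c acc => n1 c + 2 * acc) 0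

/-- the exclusion test for the square with centre `g` and half side `1`: `true` if the square may
contain a root -/
def keep (l : List ℤ) (g : ℤ × ℤ) : Bool :=
  decide (n1 ((taylor g l).headD (0, 0)) ≤ 4 * wsum (taylor g l).tail)

/-- the polynomial `2 ^ (t n) f (2 ^ (e - t) X)`, `n = length - 1`: its `k`-th coefficient is
`a_k 2 ^ (e k + t (n - k))` -/
def hat (e t : ℕ) (l : List ℤ) : List ℤ :=
  l.zipIdx.map (fun p => p.1 * ((2 ^ (e * p.2 + t * (l.length - 1 - p.2)) : ℕ) : ℤ))

/-- the centres of the four quarters of a square -/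
def children (g : ℤ × ℤ) : List (ℤ × ℤ) :=
  [(2 * g.1 - 1, 2 * g.2 - 1), (2 * g.1 - 1, 2 * g.2 + 1),
   (2 * g.1 + 1, 2 * g.2 - 1), (2 * g.1 + 1, 2 * g.2 + 1)]

/-- the retained squares at level `t` (side `2 ^ (e - t + 1)`, centre `2 ^ (e - t) g`) -/
def squares (K e : ℕ) (l : List ℤ) (t : ℕ) : List (ℤ × ℤ) :=
  (List.range t).foldl
    (fun s i => clamp K [] ((s.flatMap children).filter (keep (hat e (i + 1) l)))) [(0, 0)]

/-! ### lattice reduction -/

def dotZ (u v : List ℤ) : ℤ := (List.zipWith (· * ·) u v).sum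

def dotQ (u v : List ℚ) : ℚ := (List.zipWith (· * ·) u v).sum

def toQ (u : List ℤ) : List ℚ := u.map (fun x : ℤ => (x : ℚ))

def subQ (v : List ℚ) (r : ℚ) (u : List ℚ) : List ℚ := List.zipWith (fun x y => x - r * y) v u

def subZ (v : List ℤ) (r : ℤ) (u : List ℤ) : List ℤ := List.zipWith (fun x y => x - r * y) v u

/-- the coefficient of the projection of `v` on the line of `c` -/
def coef (v c : List ℚ) : ℚ := dotQ v c / dotQ c c

/-- a nearest integer -/
def rnd (q : ℚ) : ℤ :=
  bif decide (q.num < 0) then -(((2 * q.num.natAbs + q.den) / (2 * q.den) : ℕ) : ℤ)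
  else (((2 * q.num.natAbs + q.den) / (2 * q.den) : ℕ) : ℤ)

/-- the component of `b` orthogonal to the vectors `p.2`, `p ∈ P` -/
def star (K : ℕ) (P : List (List ℤ × List ℚ)) (b : List ℤ) : List ℚ :=
  foldlC K [] (fun v p => subQ v (coef (toQ b) p.2) p.2) (toQ b) P

/-- size reduction of `b` by the vectors `p.1`, `p ∈ P`, whose orthogonalisation is `p.2` -/
def red (K : ℕ) (P : List (List ℤ × List ℚ)) (b : List ℤ) : List ℤ :=
  foldlC K [] (fun v p => subZ v (rnd (coef (toQ v) p.2)) p.1) b P.reverse

/-- size reduction of a basis, with the Gram–Schmidt vectors -/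
def pass (K : ℕ) (B : List (List ℤ)) : List (List ℤ × List ℚ) :=
  foldlC K [] (fun P b => P ++ [(red K P b, star K P b)]) [] B

/-- the Lovász condition fails -/
def bad (p q : List ℤ × List ℚ) : Bool :=
  decide (4 * (dotQ q.2 q.2 + coef (toQ q.1) p.2 * coef (toQ q.1) p.2 * dotQ p.2 p.2) <
    3 * dotQ p.2 p.2)

/-- exchange the entries `i` and `i + 1` -/
def swapAt (B : List (List ℤ)) (i : ℕ) : List (List ℤ) :=
  B.take i ++ [B.getD (i + 1) [], B.getD i []] ++ B.drop (i + 2)

/-- the first place where the Lovász condition fails -/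
def firstBad (P : List (List ℤ × List ℚ)) : Option ℕ :=
  (List.range (P.length - 1)).find? (fun i => bad (P.getD i ([], [])) (P.getD (i + 1) ([], [])))

/-- one round of lattice reduction; the flag says that the basis is reduced -/
def lllStep (K : ℕ) (s : List (List ℤ) × Bool) : List (List ℤ) × Bool :=
  bif s.2 then s else
    (firstBad (pass K s.1)).elim ((pass K s.1).map Prod.fst, true)
      (fun i => (swapAt ((pass K s.1).map Prod.fst) i, false))

/-- lattice reduction with at most `T` rounds -/
def lll (K T : ℕ) (B : List (List ℤ)) : List (List ℤ) :=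
  (iterC K ([], true) (lllStep K) T (B, false)).1

/-! ### the minimal polynomial of a root near `γ / 2 ^ w` -/

/-- powers `1, γ, …, γ ^ (n-1)` with the weights: the `i`-th entry is `2 ^ (w (n - i) + w) γ ^ i` -/
def gpow (g : ℤ × ℤ) (i : ℕ) : ℤ × ℤ := (gmul g)^[i] (1, 0)

/-- the `i`-th vector of the lattice in dimension `D + 3` -/
def latRow (n w D : ℕ) (g : ℤ × ℤ) (i : ℕ) : List ℤ :=
  (List.range (D + 1)).map (fun j => bif decide (j = i) then ((2 ^ (w * n) : ℕ) : ℤ) else 0) ++
    [((2 ^ (w * (n - i) + w) : ℕ) : ℤ) * (gpow g i).1,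
     ((2 ^ (w * (n - i) + w) : ℕ) : ℤ) * (gpow g i).2]

def lattice (n w D : ℕ) (g : ℤ × ℤ) : List (List ℤ) :=
  (List.range (D + 1)).map (latRow n w D g)

/-- exact division by a natural number -/
def divN (z : ℤ) (m : ℕ) : ℤ :=
  bif decide (z < 0) then -((z.natAbs / m : ℕ) : ℤ) else ((z.natAbs / m : ℕ) : ℤ)

/-- the first vector of the reduced basis -/
def shortVec (K T n w D : ℕ) (g : ℤ × ℤ) : List ℤ := (lll K T (lattice n w D g)).headD []

/-- the least `D ≥ 1` for which the reduced basis starts with a vector of square length at most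
`2 ^ S`, and the coefficients of the corresponding polynomial -/
def minPol (K T S n w : ℕ) (g : ℤ × ℤ) : List ℤ :=
  (((List.range n).map (fun d => (d + 1, shortVec K T n w (d + 1) g))).find?
    (fun p => decide (dotZ p.2 p.2 ≤ ((2 ^ S : ℕ) : ℤ)))).elim []
    (fun p => (p.2.take (p.1 + 1)).map (fun z => divN z (2 ^ (w * n))))

/-- make the leading coefficient positive -/
def posLead (l : List ℤ) : List ℤ :=
  bif decide (l.getLastD 0 < 0) then l.map (fun z => -z) else l

/-- multiplicity: the first `j` for which the `j`-th Taylor coefficient of `f` at `γ / 2 ^ w` has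
absolute value more than `2 ^ (- u)`; the `j`-th coefficient of `taylor γ (hat 0 w l)` is
`2 ^ (w (n - j))` times that Taylor coefficient -/
def multAt (u w : ℕ) (l : List ℤ) (g : ℤ × ℤ) : ℕ :=
  ((List.range l.length).find? (fun j => decide (2 ^ (w * (l.length - 1 - j)) <
    n1 ((taylor g (hat 0 w l)).getD j (0, 0)) * 2 ^ u))).getD 0

/-- remove repetitions -/
def dedupL (L : List (List ℤ × ℕ)) : List (List ℤ × ℕ) :=
  L.foldr (fun p acc => bif decide (p ∈ acc) then acc else p :: acc) []

end Pool.Agent.Helper78.UF
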