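import Pool.Agent.Helper78.UF.Swap

/-!
# Lattice reduction: the result
-/

set_option autoImplicit false

namespace Pool.Agent.Helper78.UF

open Pool.Agent.PolyTime Pool.Agent.LinAlg Finset
open scoped RealInnerProductSpace

variable {m n x : ℕ} {B : List (List ℤ)}

/-! ### the Lovász condition -/

/-- consequence of the reducedness -/
def Rd (m n : ℕ) (B : List (List ℤ)) : Prop :=
  ∀ i, i + 1 < n → ‖gs (vs m B) i‖ ^ 2 ≤ 2 * ‖gs (vs m B) (i + 1)‖ ^ 2

theorem bad_iff {P : List (List ℤ × List ℚ)} (hP : PInv m B n P) {i : ℕ} (hi : i + 1 < n) :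
    bad (P.getD i ([], [])) (P.getD (i + 1) ([], [])) = true ↔
      4 * (‖gs (vs m (P.map Prod.fst)) (i + 1)‖ ^ 2 +
        mu m (P.map Prod.fst) i ^ 2 * ‖gs (vs m (P.map Prod.fst)) i‖ ^ 2) <
      3 * ‖gs (vs m (P.map Prod.fst)) i‖ ^ 2 := by
  rw [bad, decide_eq_true_iff, mu, hP.gs_eq i (by omega), hP.gs_eq (i + 1) hi, vs, getD_map_fst]
  have h1 := dotQ_eq (hP.lenc (i + 1) hi) (hP.lenc (i + 1) hi)
  have h2 := dotQ_eq (hP.lenc i (by omega)) (hP.lenc i (by omega))
  have h3 := coef_eq (v := toQ (P.getD (i + 1) ([], [])).1) (c := (P.getD i ([], [])).2)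
    (by rw [length_toQ, hP.lenb (i + 1) hi]) (hP.lenc i (by omega))
  rw [hP.st (i + 1) hi, real_inner_self_eq_norm_sq] at h1
  rw [hP.st i (by omega), real_inner_self_eq_norm_sq] at h2
  rw [hP.st i (by omega), qvec_toQ] at h3
  rw [← h1, ← h2, ← h3]
  generalize P.getD i ([], []) = p
  generalize P.getD (i + 1) ([], []) = q
  rw [← Rat.cast_lt (K := ℝ)]
  push_cast
  rw [sq]

theorem mu_le (hB : BInv m n x B) {P : List (List ℤ × List ℚ)} (hP : PInv m B n P) {i : ℕ}
    (hi : i + 1 < n) : mu m (P.map Prod.fst) i ^ 2 ≤ 1 / 4 := by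
  rw [mu, hP.gs_eq i (by omega), vs, getD_map_fst]
  have h4 := hP.red (i + 1) hi i (by omega)
  have hne := hB.ne i (by omega)
  have hpos : 0 < ‖gs (vs m B) i‖ ^ 2 := by positivity
  rw [real_inner_self_eq_norm_sq]
  have h6 : |⟪evec m (P.getD (i + 1) ([], [])).1, gs (vs m B) i⟫ / ‖gs (vs m B) i‖ ^ 2| ≤
      1 / 2 := by
    rw [abs_div, abs_of_pos hpos, div_le_iff₀ hpos]
    exact h4
  rw [← sq_abs]
  nlinarith [abs_nonneg (⟪evec m (P.getD (i + 1) ([], [])).1, gs (vs m B) i⟫ /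
    ‖gs (vs m B) i‖ ^ 2)]

theorem Rd_of_none (hB : BInv m n x B) {P : List (List ℤ × List ℚ)} (hP : PInv m B n P)
    (h : firstBad P = none) : Rd m n (P.map Prod.fst) := by
  intro i hi
  rw [firstBad, List.find?_eq_none] at h
  have h1 := h i (by rw [List.mem_range, hP.len]; omega)
  rw [bad_iff hP hi] at h1
  push Not at h1
  have h2 := mu_le hB hP hi
  have h3 : 0 ≤ ‖gs (vs m (P.map Prod.fst)) i‖ ^ 2 := by positivity
  nlinarith

theorem bad_of_some {P : List (List ℤ × List ℚ)} (hP : PInv m B n P) {i : ℕ}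
    (h : firstBad P = some i) : i + 1 < n ∧
      ‖gs (vs m (P.map Prod.fst)) (i + 1)‖ ^ 2 +
        mu m (P.map Prod.fst) i ^ 2 * ‖gs (vs m (P.map Prod.fst)) i‖ ^ 2 ≤
      3 / 4 * ‖gs (vs m (P.map Prod.fst)) i‖ ^ 2 := by
  rw [firstBad] at h
  have h1 := List.mem_of_find?_eq_some h
  have h2 := List.find?_some h
  rw [List.mem_range, hP.len] at h1
  have h3 : i + 1 < n := by omega
  refine ⟨h3, ?_⟩
  have h4 : bad (P.getD i ([], [])) (P.getD (i + 1) ([], [])) = true := h2
  rw [bad_iff hP h3] at h4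
  linarith

/-! ### the iteration -/

/-- the invariant of the iteration -/
structure LInv (m n x : ℕ) (L : Submodule ℤ (Fin m → ℤ)) (t : ℕ)
    (s : List (List ℤ) × Bool) : Prop where
  binv : BInv m n x s.1
  lat : lat m s.1 = L
  pot : s.2 = false → pot m n s.1 ≤ (3 / 4) ^ t * 2 ^ (x * n * n)
  rd : s.2 = true → Rd m n s.1

theorem LInv.step {L : Submodule ℤ (Fin m → ℤ)} {t : ℕ} {s : List (List ℤ) × Bool}
    (h : LInv m n x L t s) {K : ℕ} (hK : lllK n m x ≤ K) :
    LInv m n x L (t + 1) (lllStep K s) := by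
  obtain ⟨B, f⟩ := s
  cases f with
  | true =>
    have e : lllStep K (B, true) = (B, true) := rfl
    rw [e]
    exact ⟨h.binv, h.lat, fun h0 => by simp at h0, h.rd⟩
  | false =>
    have hB : BInv m n x B := h.binv
    have hP := pass_spec hB hK
    have hB' := hP.binv hB
    have hlat : Pool.Agent.Helper78.UF.lat m ((pass K B).map Prod.fst) = L :=
      (hP.lat_eq hB).trans h.lat
    have hpot := h.pot rfl
    have e : lllStep K (B, false) = (firstBad (pass K B)).elim ((pass K B).map Prod.fst, true)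
      (fun i => (swapAt ((pass K B).map Prod.fst) i, false)) := rfl
    rw [e]
    cases hf : firstBad (pass K B) with
    | none =>
      exact ⟨hB', hlat, fun h0 => by simp at h0, fun _ => Rd_of_none hB hP hf⟩
    | some i =>
      obtain ⟨hi, hbad⟩ := bad_of_some hP hf
      have hiB : i + 1 < ((pass K B).map Prod.fst).length := by rw [hB'.len]; exact hi
      refine ⟨(hB'.swap hi hbad).1, (lat_swapAt hiB).trans hlat, fun _ => ?_,
        fun h0 => by simp at h0⟩
      have h1 := hB'.pot_swap hi hbad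
      rw [hP.pot_eq] at h1
      calc Pool.Agent.Helper78.UF.pot m n (swapAt ((pass K B).map Prod.fst) i) ≤
            3 / 4 * Pool.Agent.Helper78.UF.pot m n B := h1
        _ ≤ 3 / 4 * ((3 / 4) ^ t * 2 ^ (x * n * n)) :=
            mul_le_mul_of_nonneg_left hpot (by norm_num)
        _ = (3 / 4) ^ (t + 1) * 2 ^ (x * n * n) := by ring

theorem LInv.size_le {L : Submodule ℤ (Fin m → ℤ)} {t : ℕ} {s : List (List ℤ) × Bool}
    (h : LInv m n x L t s) {K : ℕ} (hK : lllK n m x ≤ K) : size s ≤ K := by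
  rw [size_prod, size_bool]
  have h1 : ∀ b ∈ s.1, size b ≤ m * (2 * (x + n + 1 + 3) + 1) := fun b hb =>
    size_of_norm_le (h.binv.lenb b hb) (h.binv.le b hb)
  have h2 := size_le_of_forall h1
  rw [h.binv.len] at h2
  have h3 := bnd_int n m x
  have h4 := pow_bnd n m x
  have h5 : n * (2 * (m * (2 * (x + n + 1 + 3) + 1)) + 1) ≤
      19 * ((n + m + 2) ^ 4 * (x + n + 1)) := by
    have h6 : 1 ≤ n + m + 2 := by omega
    have h7 : 1 ≤ x + n + 1 := by omega
    have h8 : 1 ≤ (n + m + 2) * (x + n + 1) := Nat.one_le_iff_ne_zero.2 (by positivity)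
    have h9 : 2 * (m * (2 * (x + n + 1 + 3) + 1)) + 1 ≤ 19 * ((n + m + 2) * (x + n + 1)) := by
      omega
    calc n * (2 * (m * (2 * (x + n + 1 + 3) + 1)) + 1) ≤
          (n + m + 2) * (19 * ((n + m + 2) * (x + n + 1))) := Nat.mul_le_mul (by omega) h9
      _ = 19 * ((n + m + 2) ^ 2 * (x + n + 1)) := by ring
      _ ≤ 19 * ((n + m + 2) ^ 4 * (x + n + 1)) := Nat.mul_le_mul_left _ h4.2.1
  have h10 := h4.2.2.2
  rw [lllK, mul_assoc] at hK
  omega

/-! ### integer combinations -/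

theorem mem_pre {k : ℕ} {v : Fin m → ℤ} (h : v ∈ pre m B k) :
    ∃ z : ℕ → ℤ, v = ∑ i ∈ Finset.range k, z i • zvec m (B.getD i []) := by
  induction k generalizing v with
  | zero =>
    rw [pre] at h
    have : v = 0 := by simpa using h
    exact ⟨0, by simpa using this⟩
  | succ k ih =>
    rw [pre_succ, Submodule.mem_sup] at h
    obtain ⟨y, hy, w, hw, rfl⟩ := h
    rw [Submodule.mem_span_singleton] at hy
    obtain ⟨a, rfl⟩ := hy
    obtain ⟨z, rfl⟩ := ih hw
    refine ⟨Function.update z k a, ?_⟩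
    rw [Finset.sum_range_succ, Function.update_self, add_comm]
    congr 1
    refine Finset.sum_congr rfl (fun i hi => ?_)
    rw [Finset.mem_range] at hi
    rw [Function.update_of_ne (by omega)]

theorem toE_sum (z : ℕ → ℤ) (k : ℕ) :
    toE m (∑ i ∈ Finset.range k, z i • zvec m (B.getD i [])) =
      ∑ i ∈ Finset.range k, (z i : ℝ) • vs m B i := by
  induction k with
  | zero => simp [toE_zero]
  | succ k ih => rw [Finset.sum_range_succ, Finset.sum_range_succ, toE_add, ih, toE_smul]; rfl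

theorem Rd.pow (h : Rd m n B) {k : ℕ} (hk : k < n) :
    ‖gs (vs m B) 0‖ ^ 2 ≤ 2 ^ k * ‖gs (vs m B) k‖ ^ 2 := by
  induction k with
  | zero => simp
  | succ k ih =>
    have h1 := ih (by omega)
    have h2 := h k hk
    calc ‖gs (vs m B) 0‖ ^ 2 ≤ 2 ^ k * ‖gs (vs m B) k‖ ^ 2 := h1
      _ ≤ 2 ^ k * (2 * ‖gs (vs m B) (k + 1)‖ ^ 2) :=
          mul_le_mul_of_nonneg_left h2 (by positivity)
      _ = 2 ^ (k + 1) * ‖gs (vs m B) (k + 1)‖ ^ 2 := by ring

/-! ### the start -/

theorem gd_ne_zero (hind : LinearIndependent ℤ (fun i : Fin n => zvec m (B.getD i []))) :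
    gd (vs m B) n ≠ 0 := by
  set G : Matrix (Fin n) (Fin n) ℤ :=
    Matrix.of fun i j => ∑ c, zvec m (B.getD i []) c * zvec m (B.getD j []) c with hG
  have h1 : gd (vs m B) n = ((G.det : ℤ) : ℝ) := by
    have h2 := RingHom.map_det (Int.castRingHom ℝ) G
    rw [eq_intCast] at h2
    rw [h2, gd]
    congr 1
    ext i j
    rw [RingHom.mapMatrix_apply, Matrix.map_apply, hG]
    simp only [Matrix.of_apply]
    rw [inner_eq]
    simp [vs, evec_apply, zvec]
  rw [h1]
  intro h0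
  have h2 : G.det = 0 := by exact_mod_cast h0
  obtain ⟨z, hz0, hz⟩ := Matrix.exists_vecMul_eq_zero_iff.2 h2
  apply hz0
  have h3 : ∑ i, z i • zvec m (B.getD i []) = 0 := by
    have h4 : ∑ c, (∑ i, z i • zvec m (B.getD i [])) c ^ 2 = 0 := by
      have h5 : ∑ j, Matrix.vecMul z G j * z j = 0 := by rw [hz]; simp
      rw [← h5]
      simp only [Matrix.vecMul, dotProduct, hG, Matrix.of_apply, Finset.sum_apply, Pi.smul_apply,
        smul_eq_mul, sq]
      simp only [Finset.sum_mul, Finset.mul_sum]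
      rw [Finset.sum_comm]
      refine Finset.sum_congr rfl (fun i _ => ?_)
      rw [Finset.sum_comm]
      refine Finset.sum_congr rfl (fun j _ => ?_)
      refine Finset.sum_congr rfl (fun c _ => ?_)
      ring
    have h5 := (Finset.sum_eq_zero_iff_of_nonneg (fun c _ => sq_nonneg _)).1 h4
    funext c
    have h6 := h5 c (Finset.mem_univ _)
    exact pow_eq_zero_iff (two_ne_zero) |>.1 h6
  exact funext (Fintype.linearIndependent_iff.1 hind z h3)

theorem binv_start (hlen : B.length = n) (hm : ∀ b ∈ B, b.length = m)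
    (hind : LinearIndependent ℤ (fun i : Fin n => zvec m (B.getD i [])))
    (hx : ∀ b ∈ B, dotZ b b ≤ 2 ^ x) : BInv m n x B := by
  have hnorm : ∀ b ∈ B, ‖evec m b‖ ^ 2 ≤ 2 ^ x := by
    intro b hb
    rw [← real_inner_self_eq_norm_sq, ← dotZ_eq (hm b hb) (hm b hb)]
    exact_mod_cast hx b hb
  refine ⟨hlen, hm, ?_, ?_, ?_⟩
  · intro k hk h0
    have h1 := gd_ne_zero hind
    rw [gd_eq_prod] at h1
    rw [Finset.prod_ne_zero_iff] at h1
    have := h1 k (Finset.mem_range.2 hk)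
    rw [h0] at this
    simp at this
  · intro k hk
    have h1 := norm_gs_le (vs m B) k
    have h2 : vs m B k = evec m (B[k]'(by omega)) := by
      rw [vs, List.getD_eq_getElem _ _ (by omega)]
    calc ‖gs (vs m B) k‖ ^ 2 ≤ ‖vs m B k‖ ^ 2 := by
          exact pow_le_pow_left₀ (norm_nonneg _) h1 2
      _ ≤ 2 ^ x := by rw [h2]; exact hnorm _ (List.getElem_mem _)
  · intro b hb
    refine norm_le_of_sq (one_le_pow₀ (by norm_num)) ((hnorm b hb).trans ?_)
    exact pow_le_pow_right₀ (by norm_num) (by omega)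

theorem linv_lll (hB : BInv m n x B) {K T : ℕ} (hT : lllT n x ≤ T) (hK : lllK n m x ≤ K) :
    BInv m n x (lll K T B) ∧ lat m (lll K T B) = lat m B ∧ Rd m n (lll K T B) := by
  have h := iterC_inv (K := K) (d := (([] : List (List ℤ)), true)) (f := lllStep K)
    (s := (B, false)) (fun t s => LInv m n x (lat m B) t s)
    ⟨hB, rfl, fun _ => by rw [pow_zero, one_mul]; exact hB.pot_le, fun h0 => by simp at h0⟩
    (fun t s hs => hs.step hK) (fun t s hs => hs.size_le hK) T
  refine ⟨h.binv, h.lat, h.rd ?_⟩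
  by_contra h0
  rw [Bool.not_eq_true] at h0
  have h1 := h.pot h0
  have h2 := h.binv.pot_ge
  have h3 : ((3 : ℝ) / 4) ^ T ≤ (3 / 4) ^ (3 * (x * n * n) + 1) := by
    refine pow_le_pow_of_le_one (by norm_num) (by norm_num) (le_trans ?_ hT)
    rw [lllT]
    nlinarith [Nat.zero_le (x * n), Nat.zero_le x]
  have h4 : ((3 : ℝ) / 4) ^ (3 * (x * n * n) + 1) ≤ 3 / 4 * (1 / 2) ^ (x * n * n) := by
    rw [pow_succ, pow_mul, mul_comm]
    refine mul_le_mul_of_nonneg_left (pow_le_pow_left₀ (by norm_num) (by norm_num) _) (by norm_num)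
  have h5 : ((1 : ℝ) / 2) ^ (x * n * n) * 2 ^ (x * n * n) = 1 := by
    rw [← mul_pow]; norm_num
  have h6 : (0 : ℝ) < 2 ^ (x * n * n) := by positivity
  have h7 : ((3 : ℝ) / 4) ^ T * 2 ^ (x * n * n) ≤ 3 / 4 := by
    calc ((3 : ℝ) / 4) ^ T * 2 ^ (x * n * n) ≤
          (3 / 4 * (1 / 2) ^ (x * n * n)) * 2 ^ (x * n * n) :=
          mul_le_mul_of_nonneg_right (h3.trans h4) h6.le
      _ = 3 / 4 := by rw [mul_assoc, h5, mul_one]
  linarith

/-- result of the lattice reduction -/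
theorem lll_spec {m : ℕ} {B : List (List ℤ)} (hB : B ≠ []) (hm : ∀ b ∈ B, b.length = m)
    (hind : LinearIndependent ℤ (fun i : Fin B.length => zvec m (B.getD i [])))
    {x : ℕ} (hx : ∀ b ∈ B, dotZ b b ≤ 2 ^ x) {K T : ℕ} (hT : lllT B.length x ≤ T)
    (hK : lllK B.length m x ≤ K) :
    ((lll K T B).headD []).length = m ∧ zvec m ((lll K T B).headD []) ∈ lat m B ∧
      zvec m ((lll K T B).headD []) ≠ 0 ∧
      (∀ v ∈ lat m B, v ≠ 0 → ∑ i, zvec m ((lll K T B).headD []) i ^ 2 ≤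
        2 ^ (B.length - 1) * ∑ i, v i ^ 2) ∧
      (∀ v ∈ lat m B, ∀ t : ℤ, zvec m ((lll K T B).headD []) = t • v → t = 1 ∨ t = -1) := by
  obtain ⟨hC, hlat, hrd⟩ := linv_lll (binv_start rfl hm hind hx) hT hK
  have hn : 0 < B.length := List.length_pos_iff.2 hB
  generalize lll K T B = C at hC hlat hrd ⊢
  generalize hgn : B.length = n at hC hlat hrd hn ⊢
  have hhead : C.headD [] = C.getD 0 [] := by cases C <;> rfl
  rw [hhead]
  have h0mem : zvec m (C.getD 0 []) ∈ lat m C := by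
    rw [lat_eq_pre, hC.len]
    exact Submodule.subset_span ⟨0, hn, rfl⟩
  have hgs0 : gs (vs m C) 0 = evec m (C.getD 0 []) := by
    rw [gs_formula]
    simp [vs]
  have hrep : ∀ v ∈ lat m B, ∃ z : ℕ → ℤ,
      v = ∑ i ∈ Finset.range n, z i • zvec m (C.getD i []) := by
    intro v hv
    rw [← hlat, lat_eq_pre, hC.len] at hv
    exact mem_pre hv
  refine ⟨hC.getD_len hn, hlat ▸ h0mem, ?_, ?_, ?_⟩
  · intro h0
    have h1 := hC.ne 0 hn
    rw [hgs0, evec_eq_toE, h0, toE_zero] at h1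
    exact h1 rfl
  · intro v hv hv0
    obtain ⟨z, hz⟩ := hrep v hv
    have hE : toE m v = ∑ i ∈ Finset.range n, (z i : ℝ) • vs m C i := by
      rw [hz, toE_sum]
    have hE0 : ∑ i ∈ Finset.range n, (z i : ℝ) • vs m C i ≠ 0 := by
      rw [← hE]
      intro h
      exact hv0 (toE_eq_zero.1 h)
    obtain ⟨k, hk, hle⟩ := exists_gs_le (vs m C) n z hE0
    rw [← hE] at hle
    have h1 := hrd.pow hk
    have h2 : ‖toE m (zvec m (C.getD 0 []))‖ ^ 2 ≤ 2 ^ (n - 1) * ‖toE m v‖ ^ 2 := by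
      rw [← evec_eq_toE, ← hgs0]
      calc ‖gs (vs m C) 0‖ ^ 2 ≤ 2 ^ k * ‖gs (vs m C) k‖ ^ 2 := h1
        _ ≤ 2 ^ (n - 1) * ‖toE m v‖ ^ 2 :=
          mul_le_mul (pow_le_pow_right₀ (by norm_num) (by omega))
            (pow_le_pow_left₀ (norm_nonneg _) hle 2) (by positivity) (by positivity)
    rw [norm_toE_sq, norm_toE_sq] at h2
    exact_mod_cast h2
  · intro v hv t ht
    obtain ⟨z, hz⟩ := hrep v hv
    have hli := (linearIndependent_iff_gs (vs m C) n).2 hC.ne
    rw [Fintype.linearIndependent_iff] at hli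
    have h1 := hli (fun i => (t : ℝ) * z i - if (i : ℕ) = 0 then 1 else 0) (by
      simp only [sub_smul, Finset.sum_sub_distrib]
      rw [sub_eq_zero]
      have h2 : ∑ i : Fin n, ((t : ℝ) * z i) • vs m C i = toE m (t • v) := by
        rw [toE_smul, hz, toE_sum, Finset.smul_sum, Fin.sum_univ_eq_sum_range
          (fun i => ((t : ℝ) * z i) • vs m C i)]
        exact Finset.sum_congr rfl (fun i _ => by rw [mul_smul])
      have h3 : ∑ i : Fin n, (if (i : ℕ) = 0 then (1 : ℝ) else 0) • vs m C i = vs m C 0 := by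
        rw [Fin.sum_univ_eq_sum_range (fun i => (if i = 0 then (1 : ℝ) else 0) • vs m C i)]
        rw [Finset.sum_eq_single 0]
        · simp
        · intro i _ hi; simp [hi]
        · intro h; exact absurd (Finset.mem_range.2 hn) h
      rw [h2, h3, ← ht]
      rfl) ⟨0, hn⟩
    simp only [if_true] at h1
    have h4 : t * z 0 = 1 := by
      have h5 : (t : ℝ) * z 0 = 1 := by linarith
      exact_mod_cast h5
    exact Int.eq_one_or_neg_one_of_mul_eq_one h4

end Pool.Agent.Helper78.UF
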