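import Pool.Agent.Helper78.UF.Red

/-!
# The pass of size reduction over a whole basis
-/

set_option autoImplicit false

namespace Pool.Agent.Helper78.UF

open Pool.Agent.PolyTime Pool.Agent.LinAlg Finset
open scoped RealInnerProductSpace

/-! ### numerical bounds -/

theorem bnd_star (n m x : ℕ) :
    m * (2 * (3 * (x * n + x + n + 1) + 7) + 1) ≤ 21 * ((n + m + 2) ^ 2 * (x + n + 1)) := by
  have h1 : x * n + x + n + 1 ≤ (x + n + 1) * (n + m + 2) := by nlinarith
  have h2 : m ≤ n + m + 2 := by omega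
  have h3 : 2 ≤ n + m + 2 := by omega
  have h4 : 1 ≤ x + n + 1 := by omega
  generalize n + m + 2 = N at *
  generalize x + n + 1 = X at *
  have h5 : 2 * (3 * (x * n + x + n + 1) + 7) + 1 ≤ 21 * (X * N) := by nlinarith
  calc m * (2 * (3 * (x * n + x + n + 1) + 7) + 1) ≤ N * (21 * (X * N)) := Nat.mul_le_mul h2 h5
    _ = 21 * (N ^ 2 * X) := by ring

theorem bnd_int (n m x : ℕ) :
    m * (2 * (x + n + 1 + 3) + 1) ≤ 9 * ((n + m + 2) * (x + n + 1)) := by
  have h2 : m ≤ n + m + 2 := by omega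
  have h5 : 2 * (x + n + 1 + 3) + 1 ≤ 9 * (x + n + 1) := by omega
  calc m * (2 * (x + n + 1 + 3) + 1) ≤ (n + m + 2) * (9 * (x + n + 1)) := Nat.mul_le_mul h2 h5
    _ = 9 * ((n + m + 2) * (x + n + 1)) := by ring

theorem bnd_red (n m x : ℕ) :
    m * (2 * (redP n x + 3) + 1) ≤ 30 * ((n + m + 2) ^ 3 * (x + n + 1)) := by
  have h1 : x * n + x + n + 2 ≤ 2 * ((x + n + 1) * (n + m + 2)) := by nlinarith
  have h2 : m ≤ n + m + 2 := by omega
  have h3 : 2 ≤ n + m + 2 := by omega
  have h4 : 1 ≤ x + n + 1 := by omega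
  have h6 : n ≤ n + m + 2 := by omega
  have h7 : x + n ≤ x + n + 1 := by omega
  rw [redP]
  have h8 : (x * n + x + n + 2) * n ≤ 2 * ((x + n + 1) * (n + m + 2)) * (n + m + 2) :=
    Nat.mul_le_mul h1 h6
  generalize (x * n + x + n + 2) * n = A at *
  generalize x + n = Y at *
  generalize n + m + 2 = N at *
  generalize Y + 1 = X at *
  have h9 : 1 ≤ X * N ^ 2 := Nat.one_le_iff_ne_zero.2 (by positivity)
  have h10 : X ≤ X * N ^ 2 := Nat.le_mul_of_pos_right _ (by positivity)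
  have h5 : 2 * (Y + 2 + A + 3) + 1 ≤ 30 * (X * N ^ 2) := by nlinarith
  calc m * (2 * (Y + 2 + A + 3) + 1) ≤ N * (30 * (X * N ^ 2)) := Nat.mul_le_mul h2 h5
    _ = 30 * (N ^ 3 * X) := by ring

theorem pow_bnd (n m x : ℕ) :
    (n + m + 2) * (x + n + 1) ≤ (n + m + 2) ^ 4 * (x + n + 1) ∧
    (n + m + 2) ^ 2 * (x + n + 1) ≤ (n + m + 2) ^ 4 * (x + n + 1) ∧
    (n + m + 2) ^ 3 * (x + n + 1) ≤ (n + m + 2) ^ 4 * (x + n + 1) ∧
    1 ≤ (n + m + 2) ^ 4 * (x + n + 1) := by
  have h3 : 1 ≤ n + m + 2 := by omega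
  have h4 : 1 ≤ x + n + 1 := by omega
  refine ⟨?_, ?_, ?_, ?_⟩
  · exact Nat.mul_le_mul_right _ (by
      calc n + m + 2 = (n + m + 2) ^ 1 := (pow_one _).symm
        _ ≤ (n + m + 2) ^ 4 := Nat.pow_le_pow_right h3 (by norm_num))
  · exact Nat.mul_le_mul_right _ (Nat.pow_le_pow_right h3 (by norm_num))
  · exact Nat.mul_le_mul_right _ (Nat.pow_le_pow_right h3 (by norm_num))
  · exact Nat.one_le_iff_ne_zero.2 (by positivity)

theorem bnd_pass (n m x : ℕ) :
    n * (2 * (2 * (m * (2 * (x + n + 1 + 3) + 1)) + 1 +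
      m * (2 * (3 * (x * n + x + n + 1) + 7) + 1)) + 1) ≤ 1000 * ((n + m + 2) ^ 4 * (x + n + 1)) := by
  have h1 := bnd_int n m x
  have h2 := bnd_star n m x
  have h3 : 1 ≤ n + m + 2 := by omega
  have h4 : 1 ≤ x + n + 1 := by omega
  have h5 : n ≤ n + m + 2 := by omega
  have h6 : (n + m + 2) * (x + n + 1) ≤ (n + m + 2) ^ 3 * (x + n + 1) :=
    Nat.mul_le_mul_right _ (by
      calc n + m + 2 = (n + m + 2) ^ 1 := (pow_one _).symm
        _ ≤ (n + m + 2) ^ 3 := Nat.pow_le_pow_right h3 (by norm_num))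
  have h7 : (n + m + 2) ^ 2 * (x + n + 1) ≤ (n + m + 2) ^ 3 * (x + n + 1) :=
    Nat.mul_le_mul_right _ (Nat.pow_le_pow_right h3 (by norm_num))
  have h8 : 1 ≤ (n + m + 2) ^ 3 * (x + n + 1) := Nat.one_le_iff_ne_zero.2 (by positivity)
  generalize m * (2 * (x + n + 1 + 3) + 1) = A at *
  generalize m * (2 * (3 * (x * n + x + n + 1) + 7) + 1) = C at *
  have h9 : 2 * (2 * A + 1 + C) + 1 ≤ 1000 * ((n + m + 2) ^ 3 * (x + n + 1)) := by
    omega
  calc n * (2 * (2 * A + 1 + C) + 1) ≤ (n + m + 2) * (1000 * ((n + m + 2) ^ 3 * (x + n + 1))) :=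
        Nat.mul_le_mul h5 h9
    _ = 1000 * ((n + m + 2) ^ 4 * (x + n + 1)) := by ring

theorem le_lllK_star (n m x : ℕ) :
    m * (2 * (3 * (x * n + x + n + 1) + 7) + 1) ≤ lllK n m x := by
  have h1 := bnd_star n m x
  have h2 := (pow_bnd n m x).2.1
  rw [lllK, mul_assoc]
  omega

theorem le_lllK_red (n m x : ℕ) : m * (2 * (redP n x + 3) + 1) ≤ lllK n m x := by
  have h1 := bnd_red n m x
  have h2 := (pow_bnd n m x).2.2.1
  rw [lllK, mul_assoc]
  omega

theorem le_lllK_pass (n m x : ℕ) : n * (2 * (2 * (m * (2 * (x + n + 1 + 3) + 1)) + 1 +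
      m * (2 * (3 * (x * n + x + n + 1) + 7) + 1)) + 1) ≤ lllK n m x := by
  have h1 := bnd_pass n m x
  rw [lllK, mul_assoc]
  exact h1

variable {m n x : ℕ} {B : List (List ℤ)}

/-- the size of an integer vector of bounded norm -/
theorem size_of_norm_le {l : List ℤ} (hl : l.length = m) (h : ‖evec m l‖ ≤ 2 ^ (x + n)) :
    size l ≤ m * (2 * (x + n + 1 + 3) + 1) := by
  refine size_ints_le hl (fun z hz => ?_)
  have h1 := (abs_le_norm hl hz).trans h
  have h2 : ((z.natAbs : ℕ) : ℝ) < ((2 ^ (x + n + 1) : ℕ) : ℝ) := by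
    rw [Nat.cast_natAbs, Int.cast_abs]
    refine lt_of_le_of_lt h1 ?_
    push_cast
    exact pow_lt_pow_right₀ (by norm_num) (by omega)
  exact_mod_cast h2

theorem norm_le_of_sq {V : Type*} [NormedAddCommGroup V] {v : V} {y : ℝ} (hy : 1 ≤ y)
    (h : ‖v‖ ^ 2 ≤ y) : ‖v‖ ≤ y := by
  by_contra h8
  push Not at h8
  nlinarith [norm_nonneg v]

theorem PInv.norm_le' (hB : BInv m n x B) {k : ℕ} (hk : k ≤ n) {P : List (List ℤ × List ℚ)}
    (hP : PInv m B k P) {i : ℕ} (hi : i < k) :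
    ‖evec m (P.getD i ([], [])).1‖ ≤ 2 ^ (x + n) :=
  norm_le_of_sq (one_le_pow₀ (by norm_num)) (hP.norm_le hB hk hi)

/-- one step of the pass -/
theorem PInv.step (hB : BInv m n x B) {k : ℕ} (hk : k < n) {P : List (List ℤ × List ℚ)}
    (hP : PInv m B k P) {K : ℕ} (hK : lllK n m x ≤ K) :
    PInv m B (k + 1) (P ++ [(Pool.Agent.Helper78.UF.red K P (B.getD k []),
      Pool.Agent.Helper78.UF.star K P (B.getD k []))]) := by
  have hbl : (B.getD k []).length = m := hB.getD_len hk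
  have hbn : ‖evec m (B.getD k [])‖ ≤ 2 ^ (x + n) := by
    have h1 : k < B.length := by rw [hB.len]; exact hk
    rw [List.getD_eq_getElem _ _ h1]
    exact hB.le _ (List.getElem_mem h1)
  obtain ⟨s1, s2, -⟩ := star_spec hB hk.le hP ((le_lllK_star n m x).trans hK) hbl hbn
  obtain ⟨r1, r2, r3⟩ := red_spec hB hk.le hP ((le_lllK_red n m x).trans hK) hbl hbn
  set q : List ℤ × List ℚ := (Pool.Agent.Helper78.UF.red K P (B.getD k []),
      Pool.Agent.Helper78.UF.star K P (B.getD k [])) with hq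
  have e1 : ∀ i < k, (P ++ [q]).getD i ([], []) = P.getD i ([], []) := by
    intro i hi
    rw [List.getD_append _ _ _ _ (by rw [hP.len]; exact hi)]
  have e2 : (P ++ [q]).getD k ([], []) = q := by
    rw [List.getD_append_right _ _ _ _ (by rw [hP.len]), hP.len]
    simp
  refine ⟨by rw [List.length_append, hP.len]; rfl, ?_, ?_, ?_, ?_, ?_⟩
  · intro i hi
    by_cases hik : i = k
    · rw [hik, e2]; exact r1
    · rw [e1 i (by omega)]; exact hP.lenb i (by omega)
  · intro i hi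
    by_cases hik : i = k
    · rw [hik, e2]; exact s1
    · rw [e1 i (by omega)]; exact hP.lenc i (by omega)
  · intro i hi
    by_cases hik : i = k
    · rw [hik, e2, gs_formula]; exact s2
    · rw [e1 i (by omega)]; exact hP.st i (by omega)
  · intro i hi
    by_cases hik : i = k
    · rw [hik, e2]; exact r2
    · rw [e1 i (by omega)]; exact hP.comb i (by omega)
  · intro i hi j hj
    by_cases hik : i = k
    · rw [hik, e2]; exact r3 j (by omega)
    · rw [e1 i (by omega)]; exact hP.red i (by omega) j hj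

/-- the result of the pass -/
theorem pass_spec (hB : BInv m n x B) {K : ℕ} (hK : lllK n m x ≤ K) : PInv m B n (pass K B) := by
  have key := foldlC_inv (K := K) (d := ([] : List (List ℤ × List ℚ)))
    (h := fun P b => P ++ [(red K P b, Pool.Agent.Helper78.UF.star K P b)]) (s := []) (l := B)
    (fun k P => PInv m B k P ∧ ∀ p ∈ P, size p.2 ≤ m * (2 * (3 * (x * n + x + n + 1) + 7) + 1))
    ⟨⟨rfl, fun i hi => by omega, fun i hi => by omega, fun i hi => by omega,
      fun i hi => by omega, fun i hi => by omega⟩, fun p hp => by simp at hp⟩ ?_ ?_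
  · rw [hB.len] at key
    exact key.1
  · rintro k hk P ⟨hP, hs⟩
    have hkn : k < n := by rw [← hB.len]; exact hk
    have e1 : B[k] = B.getD k [] := (List.getD_eq_getElem _ _ hk).symm
    rw [e1]
    refine ⟨hP.step hB hkn hK, ?_⟩
    intro p hp
    rw [List.mem_append, List.mem_singleton] at hp
    rcases hp with hp | rfl
    · exact hs p hp
    · have hbn : ‖evec m (B.getD k [])‖ ≤ 2 ^ (x + n) := by
        rw [← e1]
        exact hB.le _ (List.getElem_mem hk)
      exact (star_spec hB hkn.le hP ((le_lllK_star n m x).trans hK) (hB.getD_len hkn) hbn).2.2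
  · rintro k P hk ⟨hP, hs⟩
    rw [hB.len] at hk
    refine le_trans ?_ hK
    refine le_trans ?_ (le_lllK_pass n m x)
    have h1 : ∀ p ∈ P, size p ≤ 2 * (m * (2 * (x + n + 1 + 3) + 1)) + 1 +
        m * (2 * (3 * (x * n + x + n + 1) + 7) + 1) := by
      intro p hp
      have h2 := hs p hp
      obtain ⟨i, hi, rfl⟩ := List.mem_iff_getElem.1 hp
      rw [hP.len] at hi
      have e1 : P[i] = P.getD i ([], []) := by
        rw [List.getD_eq_getElem _ _ (by rw [hP.len]; exact hi)]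
      rw [e1] at h2 ⊢
      have h3 := size_of_norm_le (hP.lenb i hi) (hP.norm_le' hB hk hi)
      rw [size_prod]
      omega
    refine (size_le_of_forall h1).trans ?_
    rw [hP.len]
    exact Nat.mul_le_mul_right _ hk

end Pool.Agent.Helper78.UF
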