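import Pool.Agent.Helper78.UF.Vecs
import Pool.Agent.Helper94.UF.Gram

/-!
# One pass of size reduction
-/

set_option autoImplicit false

namespace Pool.Agent.Helper78.UF

open Pool.Agent.PolyTime Pool.Agent.LinAlg Finset
open scoped RealInnerProductSpace

/-- the sequence of the rows -/
noncomputable def vs (m : ℕ) (B : List (List ℤ)) : ℕ → EuclideanSpace ℝ (Fin m) :=
  fun i => evec m (B.getD i [])

/-- the real vector of an integer vector -/
noncomputable def toE (m : ℕ) (z : Fin m → ℤ) : EuclideanSpace ℝ (Fin m) :=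
  WithLp.toLp 2 (fun i => ((z i : ℤ) : ℝ))

theorem evec_eq_toE (m : ℕ) (l : List ℤ) : evec m l = toE m (zvec m l) := rfl

theorem toE_add (m : ℕ) (y z : Fin m → ℤ) : toE m (y + z) = toE m y + toE m z := by
  ext i; simp [toE]

theorem toE_sub (m : ℕ) (y z : Fin m → ℤ) : toE m (y - z) = toE m y - toE m z := by
  ext i; simp [toE]

theorem toE_smul (m : ℕ) (r : ℤ) (z : Fin m → ℤ) : toE m (r • z) = (r : ℝ) • toE m z := by
  ext i; simp [toE]

theorem toE_zero (m : ℕ) : toE m 0 = 0 := by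
  ext i; simp [toE]

theorem toE_eq_zero {m : ℕ} {z : Fin m → ℤ} : toE m z = 0 ↔ z = 0 := by
  constructor
  · intro h
    funext i
    have := congrArg (fun y : EuclideanSpace ℝ (Fin m) => y i) h
    simpa [toE] using this
  · rintro rfl; exact toE_zero m

theorem norm_toE_sq (m : ℕ) (z : Fin m → ℤ) : ‖toE m z‖ ^ 2 = ((∑ i, z i ^ 2 : ℤ) : ℝ) := by
  rw [EuclideanSpace.norm_sq_eq]
  push_cast
  exact Finset.sum_congr rfl (fun i _ => by simp [toE])

theorem toE_mem_span {m : ℕ} {s : Set (Fin m → ℤ)} {z : Fin m → ℤ}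
    (h : z ∈ Submodule.span ℤ s) : toE m z ∈ Submodule.span ℝ (toE m '' s) := by
  induction h using Submodule.span_induction with
  | mem x hx => exact Submodule.subset_span ⟨x, hx, rfl⟩
  | zero => rw [toE_zero]; exact Submodule.zero_mem _
  | add x y _ _ hx hy => rw [toE_add]; exact Submodule.add_mem _ hx hy
  | smul r x _ hx => rw [toE_smul]; exact Submodule.smul_mem _ _ hx

/-- entries are bounded by the norm -/
theorem abs_le_norm {m : ℕ} {l : List ℤ} (hl : l.length = m) {z : ℤ} (hz : z ∈ l) :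
    |(z : ℝ)| ≤ ‖evec m l‖ := by
  obtain ⟨i, hi, rfl⟩ := List.mem_iff_getElem.1 hz
  have h1 : evec m l ⟨i, by omega⟩ = ((l[i] : ℤ) : ℝ) := by
    rw [evec_apply, List.getD_eq_getElem _ _ hi]
  rw [← h1, ← Real.norm_eq_abs]
  exact PiLp.norm_apply_le _ _

theorem abs_le_normQ {m : ℕ} (l : List ℚ) (i : Fin m) :
    |((l.getD i 0 : ℚ) : ℝ)| ≤ ‖qvec m l‖ := by
  rw [← qvec_apply, ← Real.norm_eq_abs]
  exact PiLp.norm_apply_le _ _

/-- the integer span of the first `k` rows -/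
def pre (m : ℕ) (B : List (List ℤ)) (k : ℕ) : Submodule ℤ (Fin m → ℤ) :=
  Submodule.span ℤ ((fun j => zvec m (B.getD j [])) '' Set.Iio k)

theorem toE_pre {m : ℕ} {B : List (List ℤ)} {k : ℕ} {z : Fin m → ℤ} (h : z ∈ pre m B k) :
    toE m z ∈ Submodule.span ℝ (vs m B '' Set.Iio k) := by
  have h1 := toE_mem_span h
  rw [Set.image_image] at h1
  exact h1

theorem pre_mono {m : ℕ} {B : List (List ℤ)} {k l : ℕ} (h : k ≤ l) : pre m B k ≤ pre m B l :=
  Submodule.span_mono (Set.image_mono (Set.Iio_subset_Iio h))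

/-- the invariant of the pass after `k` vectors -/
structure PInv (m : ℕ) (B : List (List ℤ)) (k : ℕ) (P : List (List ℤ × List ℚ)) : Prop where
  len : P.length = k
  lenb : ∀ i < k, (P.getD i ([], [])).1.length = m
  lenc : ∀ i < k, (P.getD i ([], [])).2.length = m
  st : ∀ i < k, qvec m (P.getD i ([], [])).2 = gs (vs m B) i
  comb : ∀ i < k, zvec m (P.getD i ([], [])).1 - zvec m (B.getD i []) ∈ pre m B i
  red : ∀ i < k, ∀ j < i, |⟪evec m (P.getD i ([], [])).1, gs (vs m B) j⟫| ≤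
    1 / 2 * ‖gs (vs m B) j‖ ^ 2

/-- the hypotheses on the basis: `2 ^ x` bounds the squares of the Gram–Schmidt vectors -/
structure BInv (m n x : ℕ) (B : List (List ℤ)) : Prop where
  len : B.length = n
  lenb : ∀ b ∈ B, b.length = m
  ne : ∀ k < n, gs (vs m B) k ≠ 0
  gsle : ∀ k < n, ‖gs (vs m B) k‖ ^ 2 ≤ 2 ^ x
  le : ∀ b ∈ B, ‖evec m b‖ ≤ 2 ^ (x + n)

variable {m n x : ℕ} {B : List (List ℤ)}

theorem BInv.getD_len (h : BInv m n x B) {i : ℕ} (hi : i < n) : (B.getD i []).length = m := by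
  have h1 : i < B.length := by rw [h.len]; exact hi
  rw [List.getD_eq_getElem _ _ h1]
  exact h.lenb _ (List.getElem_mem h1)

theorem BInv.gd_pos (h : BInv m n x B) {k : ℕ} (hk : k ≤ n) : 0 < gd (vs m B) k := by
  rw [gd_eq_prod]
  refine Finset.prod_pos (fun i hi => ?_)
  have := h.ne i (by rw [Finset.mem_range] at hi; omega)
  positivity

theorem BInv.gd_ge (h : BInv m n x B) {k : ℕ} (hk : k ≤ n) : 1 ≤ gd (vs m B) k := by
  obtain ⟨z, hz⟩ := gd_int (m := m) B k
  have h1 := h.gd_pos hk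
  have h2 : gd (vs m B) k = z := hz
  rw [h2] at h1 ⊢
  have h3 : 0 < z := by exact_mod_cast h1
  exact_mod_cast h3

theorem BInv.gd_le (h : BInv m n x B) {k : ℕ} (hk : k ≤ n) : gd (vs m B) k ≤ 2 ^ (x * k) := by
  rw [gd_eq_prod, pow_mul]
  calc ∏ i ∈ Finset.range k, ‖gs (vs m B) i‖ ^ 2 ≤ ∏ i ∈ Finset.range k, (2 : ℝ) ^ x :=
        Finset.prod_le_prod (fun i _ => by positivity)
          (fun i hi => h.gsle i (by rw [Finset.mem_range] at hi; omega))
    _ = (2 ^ x) ^ k := by rw [Finset.prod_const, Finset.card_range]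

theorem BInv.gs_sq_ge (h : BInv m n x B) {k : ℕ} (hk : k < n) :
    1 ≤ 2 ^ (x * n) * ‖gs (vs m B) k‖ ^ 2 := by
  have h1 := h.gd_ge (k := k + 1) (by omega)
  rw [gd_eq_prod, Finset.prod_range_succ, ← gd_eq_prod] at h1
  have h2 := h.gd_le (k := k) (by omega)
  have h3 : (2 : ℝ) ^ (x * k) ≤ 2 ^ (x * n) :=
    pow_le_pow_right₀ (by norm_num) (Nat.mul_le_mul_left _ (by omega))
  calc (1 : ℝ) ≤ gd (vs m B) k * ‖gs (vs m B) k‖ ^ 2 := h1
    _ ≤ 2 ^ (x * n) * ‖gs (vs m B) k‖ ^ 2 :=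
        mul_le_mul_of_nonneg_right (h2.trans h3) (by positivity)

/-- coefficients are bounded -/
theorem BInv.coef_le (h : BInv m n x B) {k : ℕ} (hk : k < n) (w : EuclideanSpace ℝ (Fin m)) :
    |⟪w, gs (vs m B) k⟫ / ⟪gs (vs m B) k, gs (vs m B) k⟫| ≤ 2 ^ (x * n) * ‖w‖ := by
  have hne := h.ne k hk
  have hpos : 0 < ‖gs (vs m B) k‖ := norm_pos_iff.2 hne
  rw [abs_div, real_inner_self_eq_norm_sq, abs_of_pos (a := ‖gs (vs m B) k‖ ^ 2) (by positivity),
    div_le_iff₀ (by positivity)]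
  have h1 := abs_real_inner_le_norm w (gs (vs m B) k)
  have h2 := h.gs_sq_ge hk
  -- ‖g‖ ≤ 2^(xn) ‖g‖^2
  have h3 : ‖gs (vs m B) k‖ ≤ 2 ^ (x * n) * ‖gs (vs m B) k‖ ^ 2 := by
    by_cases h4 : ‖gs (vs m B) k‖ ≤ 1
    · exact h4.trans h2
    · push Not at h4
      have h5 : ‖gs (vs m B) k‖ ≤ ‖gs (vs m B) k‖ ^ 2 := by nlinarith
      have h6 : (1 : ℝ) ≤ 2 ^ (x * n) := one_le_pow₀ (by norm_num)
      nlinarith [sq_nonneg ‖gs (vs m B) k‖]
  calc |⟪w, gs (vs m B) k⟫| ≤ ‖w‖ * ‖gs (vs m B) k‖ := h1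
    _ ≤ ‖w‖ * (2 ^ (x * n) * ‖gs (vs m B) k‖ ^ 2) :=
        mul_le_mul_of_nonneg_left h3 (norm_nonneg _)
    _ = 2 ^ (x * n) * ‖w‖ * ‖gs (vs m B) k‖ ^ 2 := by ring

theorem PInv.mono {k : ℕ} {P : List (List ℤ × List ℚ)} (hP : PInv m B k P) {i : ℕ} (hi : i < k) :
    ⟪evec m (P.getD i ([], [])).1, gs (vs m B) i⟫ = ‖gs (vs m B) i‖ ^ 2 := by
  have h1 := toE_pre (hP.comb i hi)
  rw [toE_sub, ← evec_eq_toE, ← evec_eq_toE] at h1
  have h2 := gs_orth_span (vs m B) h1
  have h3 := gs_orth_span (vs m B) (sub_gs_mem (vs m B) i)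
  rw [inner_sub_left] at h2 h3
  have h4 : vs m B i = evec m (B.getD i []) := rfl
  rw [h4] at h3
  rw [← real_inner_self_eq_norm_sq]
  linarith

theorem PInv.orth {k : ℕ} {P : List (List ℤ × List ℚ)} (hP : PInv m B k P) {i l : ℕ} (hi : i < k)
    (hl : i < l) : ⟪evec m (P.getD i ([], [])).1, gs (vs m B) l⟫ = 0 := by
  apply gs_orth_span
  have h1 := toE_pre (hP.comb i hi)
  rw [toE_sub, ← evec_eq_toE, ← evec_eq_toE] at h1
  have h2 : Submodule.span ℝ (vs m B '' Set.Iio i) ≤ Submodule.span ℝ (vs m B '' Set.Iio l) :=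
    Submodule.span_mono (Set.image_mono (Set.Iio_subset_Iio hl.le))
  have h3 : evec m (B.getD i []) ∈ Submodule.span ℝ (vs m B '' Set.Iio l) :=
    Submodule.subset_span ⟨i, hl, rfl⟩
  have := Submodule.add_mem _ (h2 h1) h3
  simpa using this

theorem PInv.norm_le (hB : BInv m n x B) {k : ℕ} (hk : k ≤ n) {P : List (List ℤ × List ℚ)}
    (hP : PInv m B k P) {i : ℕ} (hi : i < k) :
    ‖evec m (P.getD i ([], [])).1‖ ^ 2 ≤ 2 ^ (x + n) := by
  set b := evec m (P.getD i ([], [])).1 with hb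
  -- Gram–Schmidt of the sequence with the `i`-th vector replaced
  set v' : ℕ → EuclideanSpace ℝ (Fin m) := Function.update (vs m B) i b with hv'
  have hIio : v' '' Set.Iio i = vs m B '' Set.Iio i := by
    apply Set.image_congr
    intro j hj
    rw [hv', Function.update_of_ne (ne_of_lt hj)]
  have hgs : ∀ j ≤ i, gs v' j = gs (vs m B) j := by
    have := gs_congr (v := vs m B) (v' := v') (n := i + 1) (fun j hj => by
      by_cases hji : j = i
      · subst hji
        rw [hv', Function.update_self, hb]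
        have h1 := toE_pre (hP.comb j hi)
        rw [toE_sub, ← evec_eq_toE, ← evec_eq_toE] at h1
        exact h1
      · rw [hv', Function.update_of_ne hji, sub_self]
        exact Submodule.zero_mem _)
    intro j hj
    exact this j (by omega)
  have h1 := norm_sq_eq v' i
  have h2 : v' i = b := by rw [hv', Function.update_self]
  rw [h2, hgs i le_rfl] at h1
  have h3 : ∀ j ∈ Finset.range i, (⟪b, gs v' j⟫ / ⟪gs v' j, gs v' j⟫) ^ 2 * ‖gs v' j‖ ^ 2 ≤
      2 ^ x / 4 := by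
    intro j hj
    rw [Finset.mem_range] at hj
    rw [hgs j hj.le]
    have h4 := hP.red i hi j hj
    have h5 := hB.gsle j (by omega)
    have hne := hB.ne j (by omega)
    have hpos : 0 < ‖gs (vs m B) j‖ ^ 2 := by positivity
    rw [real_inner_self_eq_norm_sq]
    have h6 : |⟪b, gs (vs m B) j⟫ / ‖gs (vs m B) j‖ ^ 2| ≤ 1 / 2 := by
      rw [abs_div, abs_of_pos hpos, div_le_iff₀ hpos]
      exact h4
    have h7 : (⟪b, gs (vs m B) j⟫ / ‖gs (vs m B) j‖ ^ 2) ^ 2 ≤ 1 / 4 := by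
      rw [← sq_abs]
      nlinarith [abs_nonneg (⟪b, gs (vs m B) j⟫ / ‖gs (vs m B) j‖ ^ 2)]
    calc _ ≤ 1 / 4 * ‖gs (vs m B) j‖ ^ 2 := mul_le_mul_of_nonneg_right h7 hpos.le
      _ ≤ 2 ^ x / 4 := by linarith
  have h8 : ∑ j ∈ Finset.range i, (⟪b, gs v' j⟫ / ⟪gs v' j, gs v' j⟫) ^ 2 * ‖gs v' j‖ ^ 2 ≤
      i * (2 ^ x / 4) := by
    refine (Finset.sum_le_sum h3).trans ?_
    rw [Finset.sum_const, Finset.card_range, nsmul_eq_mul]
  have h9 := hB.gsle i (by omega)
  have h10 : (i : ℝ) + 1 ≤ 2 ^ n := by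
    have : i + 1 ≤ 2 ^ n := by
      have := Nat.lt_two_pow_self (n := n)
      omega
    exact_mod_cast this
  rw [h1, pow_add]
  have h11 : (0 : ℝ) < 2 ^ x := by positivity
  nlinarith

theorem norm_proj_le {V : Type*} [NormedAddCommGroup V] [InnerProductSpace ℝ V] (v : ℕ → V)
    (b : V) (j : ℕ) (hne : ∀ i < j, gs v i ≠ 0) :
    ‖b - ∑ i ∈ Finset.range j, (⟪b, gs v i⟫ / ⟪gs v i, gs v i⟫) • gs v i‖ ≤ ‖b‖ := by
  set p := ∑ i ∈ Finset.range j, (⟪b, gs v i⟫ / ⟪gs v i, gs v i⟫) • gs v i with hp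
  have h1 : ∀ i < j, ⟪b - p, gs v i⟫ = 0 := by
    intro i hi
    rw [inner_sub_left, hp, sum_inner]
    have h2 : ∑ l ∈ Finset.range j, ⟪(⟪b, gs v l⟫ / ⟪gs v l, gs v l⟫) • gs v l, gs v i⟫ =
        ⟪b, gs v i⟫ := by
      rw [Finset.sum_eq_single i]
      · rw [inner_smul_left]
        have : ⟪gs v i, gs v i⟫ ≠ 0 := inner_self_ne_zero.2 (hne i hi)
        simp only [conj_trivial]
        field_simp
      · intro l _ hli
        rw [inner_smul_left, gs_orth v hli, mul_zero]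
      · intro h
        exact absurd (Finset.mem_range.2 hi) h
    rw [h2, sub_self]
  have h3 : ⟪b - p, p⟫ = 0 := by
    conv_lhs => rw [hp]
    rw [inner_sum]
    refine Finset.sum_eq_zero (fun i hi => ?_)
    rw [inner_smul_right, ← hp, h1 i (Finset.mem_range.1 hi), mul_zero]
  have h4 : ‖b‖ ^ 2 = ‖b - p‖ ^ 2 + ‖p‖ ^ 2 := by
    have h5 : b = (b - p) + p := by abel
    conv_lhs => rw [h5]
    rw [norm_add_sq_real, h3]
    ring
  have h6 : ‖b - p‖ ^ 2 ≤ ‖b‖ ^ 2 := by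
    rw [h4]; nlinarith [sq_nonneg ‖p‖]
  exact (sq_le_sq₀ (norm_nonneg _) (norm_nonneg _)).1 h6

/-- result of the projection -/
theorem star_spec (hB : BInv m n x B) {k : ℕ} (hk : k ≤ n) {P : List (List ℤ × List ℚ)}
    (hP : PInv m B k P) {K : ℕ} (hK : m * (2 * (3 * (x * n + x + n + 1) + 7) + 1) ≤ K)
    {b : List ℤ} (hb : b.length = m) (hbn : ‖evec m b‖ ≤ 2 ^ (x + n)) :
    (Pool.Agent.Helper78.UF.star K P b).length = m ∧
    qvec m (Pool.Agent.Helper78.UF.star K P b) = evec m b - ∑ i ∈ Finset.range k,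
      (⟪evec m b, gs (vs m B) i⟫ / ⟪gs (vs m B) i, gs (vs m B) i⟫) • gs (vs m B) i ∧
    size (Pool.Agent.Helper78.UF.star K P b) ≤
      m * (2 * (3 * (x * n + x + n + 1) + 7) + 1) := by
  set proj : ℕ → EuclideanSpace ℝ (Fin m) := fun j => evec m b - ∑ i ∈ Finset.range j,
      (⟪evec m b, gs (vs m B) i⟫ / ⟪gs (vs m B) i, gs (vs m B) i⟫) • gs (vs m B) i with hproj
  have hsz : ∀ (j : ℕ) (u : List ℚ), j ≤ n → u.length = m → qvec m u = proj j →
      size u ≤ m * (2 * (3 * (x * n + x + n + 1) + 7) + 1) := by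
    intro j u hj hu hq
    refine size_rats_le hu ?_
    intro q hqu
    obtain ⟨c, hc, rfl⟩ := List.mem_iff_getElem.1 hqu
    obtain ⟨D, hD⟩ := gd_int (m := m) B j
    have hD' : gd (vs m B) j = D := hD
    have hD0 : gd (vs m B) j ≠ 0 := (hB.gd_pos hj).ne'
    obtain ⟨z, hz⟩ := gd_smul_int B (vs m B) rfl j hD0 b ⟨c, by omega⟩
    have hDpos : 0 < D := by
      have := hB.gd_pos hj
      rw [hD'] at this
      exact_mod_cast this
    have hDle : (D : ℝ) ≤ 2 ^ (x * n) := by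
      rw [← hD']
      exact (hB.gd_le hj).trans (pow_le_pow_right₀ (by norm_num) (Nat.mul_le_mul_left _ hj))
    have huc : ((u[c] : ℚ) : ℝ) = qvec m u ⟨c, by omega⟩ := by
      rw [qvec_apply, List.getD_eq_getElem _ _ hc]
    have hz2 : (D : ℝ) * ((u[c] : ℚ) : ℝ) = z := by
      rw [huc, hq, ← hD', ← hz]
      simp [hproj]
    have hz3 : (u[c] : ℚ) = (z : ℚ) / D := by
      have h1 : (D : ℚ) * u[c] = z := by exact_mod_cast hz2
      rw [← h1]
      field_simp
    have hnorm : ‖proj j‖ ≤ ‖evec m b‖ :=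
      norm_proj_le (vs m B) (evec m b) j (fun i hi => hB.ne i (by omega))
    have hzle : |(z : ℝ)| ≤ 2 ^ (x * n) * 2 ^ (x + n) := by
      rw [← hz2, abs_mul, abs_of_pos (a := (D : ℝ)) (by exact_mod_cast hDpos)]
      refine mul_le_mul hDle ?_ (abs_nonneg _) (by positivity)
      have h1 := abs_le_normQ (m := m) u ⟨c, by omega⟩
      rw [List.getD_eq_getElem _ _ hc, hq] at h1
      exact h1.trans (hnorm.trans hbn)
    refine hb_div_le (A := z) (B := D) hDpos.ne' ?_ ?_ hz3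
    · have h1 : ((z.natAbs : ℕ) : ℝ) < ((2 ^ (x * n + x + n + 1) : ℕ) : ℝ) := by
        rw [Nat.cast_natAbs, Int.cast_abs]
        refine lt_of_le_of_lt hzle ?_
        push_cast
        rw [← pow_add]
        exact pow_lt_pow_right₀ (by norm_num) (by omega)
      exact_mod_cast h1
    · have h1 : ((D.natAbs : ℕ) : ℝ) < ((2 ^ (x * n + x + n + 1) : ℕ) : ℝ) := by
        rw [Nat.cast_natAbs, Int.cast_abs, abs_of_pos (by exact_mod_cast hDpos)]
        refine lt_of_le_of_lt hDle ?_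
        push_cast
        exact pow_lt_pow_right₀ (by norm_num) (by omega)
      exact_mod_cast h1
  have key := foldlC_inv (K := K) (d := ([] : List ℚ))
    (h := fun v (p : List ℤ × List ℚ) => subQ v (coef (toQ b) p.2) p.2) (s := toQ b) (l := P)
    (fun j u => u.length = m ∧ qvec m u = proj j)
    ⟨by rw [length_toQ, hb], by rw [qvec_toQ]; simp [hproj]⟩ ?_ ?_
  · rw [hP.len] at key
    exact ⟨key.1, key.2, hsz k _ hk key.1 key.2⟩
  · rintro j hj u ⟨hu1, hu2⟩
    rw [hP.len] at hj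
    have e1 : P[j] = P.getD j ([], []) := by
      rw [List.getD_eq_getElem _ _ (by rw [hP.len]; exact hj)]
    have hc := hP.lenc j hj
    rw [e1]
    refine ⟨length_subQ hu1 hc, ?_⟩
    rw [qvec_subQ _ hu1 hc, coef_eq (by rw [length_toQ, hb]) hc, hu2, hP.st j hj, qvec_toQ, hproj]
    simp only [Finset.sum_range_succ]
    abel
  · rintro j u hj ⟨hu1, hu2⟩
    rw [hP.len] at hj
    exact (hsz j u (hj.trans hk) hu1 hu2).trans hK

/-- the exponent that bounds the entries during a size reduction -/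
def redP (n x : ℕ) : ℕ := (x + n) + 2 + (x * n + x + n + 2) * n

/-- result of the size reduction of one vector -/
theorem red_spec (hB : BInv m n x B) {k : ℕ} (hk : k ≤ n) {P : List (List ℤ × List ℚ)}
    (hP : PInv m B k P) {K : ℕ} (hK : m * (2 * (redP n x + 3) + 1) ≤ K)
    {b : List ℤ} (hb : b.length = m) (hbn : ‖evec m b‖ ≤ 2 ^ (x + n)) :
    (red K P b).length = m ∧ zvec m (red K P b) - zvec m b ∈ pre m B k ∧
    ∀ j < k, |⟪evec m (red K P b), gs (vs m B) j⟫| ≤ 1 / 2 * ‖gs (vs m B) j‖ ^ 2 := by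
  set q := x * n + x + n + 2 with hq
  have key := foldlC_inv (K := K) (d := ([] : List ℤ))
    (h := fun v (p : List ℤ × List ℚ) => subZ v (rnd (coef (toQ v) p.2)) p.1) (s := b)
    (l := P.reverse)
    (fun i w => w.length = m ∧ zvec m w - zvec m b ∈ pre m B k ∧
      (∀ j, k - i ≤ j → j < k → |⟪evec m w, gs (vs m B) j⟫| ≤ 1 / 2 * ‖gs (vs m B) j‖ ^ 2) ∧
      ‖evec m w‖ + 1 ≤ (2 ^ (x + n) + 1) * (2 ^ q) ^ i)
    ⟨hb, by rw [sub_self]; exact Submodule.zero_mem _, fun j h1 h2 => by omega,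
      by simpa using hbn⟩ ?_ ?_
  · rw [List.length_reverse, hP.len] at key
    exact ⟨key.1, key.2.1, fun j hj => key.2.2.1 j (by omega) hj⟩
  · rintro i hi w ⟨hw1, hw2, hw3, hw4⟩
    rw [List.length_reverse, hP.len] at hi
    set j := k - 1 - i with hj
    have hjk : j < k := by omega
    have e1 : P.reverse[i]'(by rw [List.length_reverse, hP.len]; exact hi) =
        P.getD j ([], []) := by
      rw [List.getElem_reverse, List.getD_eq_getElem _ _ (by rw [hP.len]; exact hjk)]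
      congr 1
      rw [hP.len]
    rw [e1]
    set p := P.getD j ([], []) with hp
    have hpb : p.1.length = m := hP.lenb j hjk
    have hpc : p.2.length = m := hP.lenc j hjk
    set r := rnd (coef (toQ w) p.2) with hr
    have hcoef : ((coef (toQ w) p.2 : ℚ) : ℝ) = ⟪evec m w, gs (vs m B) j⟫ /
        ⟪gs (vs m B) j, gs (vs m B) j⟫ := by
      rw [coef_eq (by rw [length_toQ, hw1]) hpc, qvec_toQ, hP.st j hjk]
    have hrnd : |⟪evec m w, gs (vs m B) j⟫ / ⟪gs (vs m B) j, gs (vs m B) j⟫ - r| ≤ 1 / 2 := by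
      rw [← hcoef]
      have h1 := rnd_le (coef (toQ w) p.2)
      rw [← hr] at h1
      have h2 : ((|coef (toQ w) p.2 - (r : ℚ)| : ℚ) : ℝ) ≤ ((1 / 2 : ℚ) : ℝ) := by
        exact_mod_cast h1
      rw [Rat.cast_abs, Rat.cast_sub, Rat.cast_intCast] at h2
      refine h2.trans (le_of_eq ?_)
      norm_num
    have hev : evec m (subZ w r p.1) = evec m w - (r : ℝ) • evec m p.1 := evec_subZ r hw1 hpb
    refine ⟨length_subZ hw1 hpb, ?_, ?_, ?_⟩
    · rw [zvec_subZ r hw1 hpb]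
      have h1 : zvec m p.1 ∈ pre m B k := by
        have h2 := pre_mono (m := m) (B := B) hjk.le (hP.comb j hjk)
        have h3 : zvec m (B.getD j []) ∈ pre m B k := Submodule.subset_span ⟨j, hjk, rfl⟩
        have e : zvec m p.1 = (zvec m p.1 - zvec m (B.getD j [])) + zvec m (B.getD j []) := by
          abel
        rw [e]
        exact Submodule.add_mem _ h2 h3
      have h4 := Submodule.sub_mem _ hw2 (Submodule.smul_mem _ r h1)
      have h5 : zvec m w - r • zvec m p.1 - zvec m b = zvec m w - zvec m b - r • zvec m p.1 := by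
        abel
      rw [h5]; exact h4
    · intro l hl1 hl2
      rw [hev, inner_sub_left, inner_smul_left]
      simp only [conj_trivial]
      by_cases hlj : l = j
      · rw [hlj, hP.mono hjk]
        have hne := hB.ne j (by omega)
        have hpos : 0 < ‖gs (vs m B) j‖ ^ 2 := by positivity
        rw [real_inner_self_eq_norm_sq] at hrnd
        have h6 : ⟪evec m w, gs (vs m B) j⟫ - (r : ℝ) * ‖gs (vs m B) j‖ ^ 2 =
            (⟪evec m w, gs (vs m B) j⟫ / ‖gs (vs m B) j‖ ^ 2 - r) * ‖gs (vs m B) j‖ ^ 2 := by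
          field_simp
        rw [h6, abs_mul, abs_of_pos hpos]
        exact mul_le_mul_of_nonneg_right hrnd hpos.le
      · rw [hP.orth hjk (by omega : j < l), mul_zero, sub_zero]
        exact hw3 l (by omega) hl2
    · rw [hev]
      have h1 : ‖evec m w - (r : ℝ) • evec m p.1‖ ≤ ‖evec m w‖ + |(r : ℝ)| * ‖evec m p.1‖ := by
        refine (norm_sub_le _ _).trans ?_
        rw [norm_smul, Real.norm_eq_abs]
      have h2 := hB.coef_le (show j < n by omega) (evec m w)
      have h3 : |(r : ℝ)| ≤ 2 ^ (x * n) * ‖evec m w‖ + 1 / 2 := by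
        have h4 : (r : ℝ) = ⟪evec m w, gs (vs m B) j⟫ / ⟪gs (vs m B) j, gs (vs m B) j⟫ -
            (⟪evec m w, gs (vs m B) j⟫ / ⟪gs (vs m B) j, gs (vs m B) j⟫ - r) := by ring
        rw [h4]
        refine (abs_sub _ _).trans ?_
        linarith
      have h5 : ‖evec m p.1‖ ≤ 2 ^ (x + n) := by
        have h6 := hP.norm_le hB hk hjk
        have h7 : (1 : ℝ) ≤ 2 ^ (x + n) := one_le_pow₀ (by norm_num)
        by_contra h8
        push Not at h8
        nlinarith [norm_nonneg (evec m p.1)]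
      have h9 : (1 : ℝ) ≤ 2 ^ (x * n) := one_le_pow₀ (by norm_num)
      have h10 : (1 : ℝ) ≤ 2 ^ (x + n) := one_le_pow₀ (by norm_num)
      set W := ‖evec m w‖ with hW
      have hW0 : 0 ≤ W := norm_nonneg _
      have h11 : |(r : ℝ)| * ‖evec m p.1‖ ≤ (2 ^ (x * n) * W + 1 / 2) * 2 ^ (x + n) :=
        mul_le_mul h3 h5 (norm_nonneg _) (by positivity)
      have h12 : ‖evec m w - (r : ℝ) • evec m p.1‖ + 1 ≤ (W + 1) * 2 ^ q := by
        have h13 : (2 : ℝ) ^ q = 4 * (2 ^ (x * n) * 2 ^ (x + n)) := by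
          rw [hq, ← pow_add]
          ring
        rw [h13]
        have h14 : (1 : ℝ) ≤ 2 ^ (x * n) * 2 ^ (x + n) := by nlinarith
        set Y := (2 : ℝ) ^ (x * n) * 2 ^ (x + n) with hY
        have h15 : (2 : ℝ) ^ (x + n) ≤ Y := by rw [hY]; nlinarith
        have h16 : (2 ^ (x * n) * W + 1 / 2) * 2 ^ (x + n) = W * Y + 1 / 2 * 2 ^ (x + n) := by
          rw [hY]; ring
        rw [h16] at h11
        nlinarith
      calc ‖evec m w - (r : ℝ) • evec m p.1‖ + 1 ≤ (W + 1) * 2 ^ q := h12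
        _ ≤ ((2 ^ (x + n) + 1) * (2 ^ q) ^ i) * 2 ^ q :=
            mul_le_mul_of_nonneg_right hw4 (by positivity)
        _ = (2 ^ (x + n) + 1) * (2 ^ q) ^ (i + 1) := by ring
  · rintro i w hi ⟨hw1, -, -, hw4⟩
    rw [List.length_reverse, hP.len] at hi
    refine (size_ints_le (p := redP n x) hw1 (fun z hz => ?_)).trans hK
    have h1 := abs_le_norm hw1 hz
    have h2 : ((z.natAbs : ℕ) : ℝ) < ((2 ^ redP n x : ℕ) : ℝ) := by
      rw [Nat.cast_natAbs, Int.cast_abs]
      push_cast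
      have h10 : (1 : ℝ) ≤ 2 ^ (x + n) := one_le_pow₀ (by norm_num)
      have h3 : |(z : ℝ)| < (2 ^ (x + n) + 1) * (2 ^ q) ^ i := by linarith
      refine h3.trans_le ?_
      have h4 : ((2 : ℝ) ^ q) ^ i ≤ (2 ^ q) ^ n :=
        pow_le_pow_right₀ (one_le_pow₀ (by norm_num)) (hi.trans hk)
      have h5 : (2 : ℝ) ^ redP n x = 4 * 2 ^ (x + n) * (2 ^ q) ^ n := by
        rw [redP, ← hq, ← pow_mul]
        ring
      rw [h5]
      have h6 : (0 : ℝ) < (2 ^ q) ^ n := by positivity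
      have h7 : (0 : ℝ) < (2 ^ q) ^ i := by positivity
      nlinarith
    exact_mod_cast h2

end Pool.Agent.Helper78.UF
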