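import Pool.Agent.Helper78.UF.Pass

/-!
# The lattice, the exchange of two vectors, the potential
-/

set_option autoImplicit false

namespace Pool.Agent.Helper78.UF

open Pool.Agent.PolyTime Pool.Agent.LinAlg Finset
open scoped RealInnerProductSpace

variable {m n x : ℕ} {B : List (List ℤ)}

/-! ### the lattice -/

theorem lat_eq_pre (m : ℕ) (B : List (List ℤ)) : lat m B = pre m B B.length := by
  rw [lat, pre]
  congr 1
  ext v
  simp only [Set.mem_setOf_eq, Set.mem_image, Set.mem_Iio]
  constructor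
  · rintro ⟨l, hl, rfl⟩
    obtain ⟨i, hi, rfl⟩ := List.mem_iff_getElem.1 hl
    exact ⟨i, hi, by rw [List.getD_eq_getElem _ _ hi]⟩
  · rintro ⟨i, hi, rfl⟩
    exact ⟨B[i], List.getElem_mem hi, by rw [List.getD_eq_getElem _ _ hi]⟩

theorem pre_succ (m : ℕ) (B : List (List ℤ)) (k : ℕ) :
    pre m B (k + 1) = Submodule.span ℤ {zvec m (B.getD k [])} ⊔ pre m B k := by
  have h : Set.Iio (k + 1) = insert k (Set.Iio k) := by
    ext i
    simp only [Set.mem_Iio, Set.mem_insert_iff]
    omega
  rw [pre, h, Set.image_insert_eq, Submodule.span_insert]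
  rfl

theorem pre_congr {B' : List (List ℤ)} {k : ℕ}
    (h : ∀ i < k, zvec m (B'.getD i []) - zvec m (B.getD i []) ∈ pre m B i) :
    pre m B' k = pre m B k := by
  induction k with
  | zero => rw [pre, pre]; simp
  | succ k ih =>
    rw [pre_succ, pre_succ, ih (fun i hi => h i (by omega))]
    have h1 := h k (by omega)
    apply le_antisymm
    · refine sup_le ?_ le_sup_right
      rw [Submodule.span_singleton_le_iff_mem]
      have e : zvec m (B'.getD k []) = zvec m (B.getD k []) +
          (zvec m (B'.getD k []) - zvec m (B.getD k [])) := by abel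
      rw [e]
      exact Submodule.add_mem_sup (Submodule.mem_span_singleton_self _) h1
    · refine sup_le ?_ le_sup_right
      rw [Submodule.span_singleton_le_iff_mem]
      have e : zvec m (B.getD k []) = zvec m (B'.getD k []) +
          (-(zvec m (B'.getD k []) - zvec m (B.getD k []))) := by abel
      rw [e]
      exact Submodule.add_mem_sup (Submodule.mem_span_singleton_self _)
        (Submodule.neg_mem _ h1)

theorem getD_map_fst (P : List (List ℤ × List ℚ)) (i : ℕ) :
    (P.map Prod.fst).getD i [] = (P.getD i ([], [])).1 :=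
  List.getD_map (l := P) (d := ([], [])) (n := i) Prod.fst

theorem PInv.gs_eq {P : List (List ℤ × List ℚ)} (hP : PInv m B n P) :
    ∀ k < n, gs (vs m (P.map Prod.fst)) k = gs (vs m B) k := by
  refine gs_congr (fun k hk => ?_)
  have h1 := toE_pre (hP.comb k hk)
  rw [toE_sub, ← evec_eq_toE, ← evec_eq_toE] at h1
  rw [vs, getD_map_fst]
  exact h1

theorem PInv.binv (hB : BInv m n x B) {P : List (List ℤ × List ℚ)} (hP : PInv m B n P) :
    BInv m n x (P.map Prod.fst) := by
  refine ⟨by rw [List.length_map, hP.len], ?_, ?_, ?_, ?_⟩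
  · intro b hb
    obtain ⟨i, hi, rfl⟩ := List.mem_iff_getElem.1 hb
    rw [List.length_map, hP.len] at hi
    rw [← List.getD_eq_getElem _ [] , getD_map_fst]
    exact hP.lenb i hi
  · intro k hk
    rw [hP.gs_eq k hk]
    exact hB.ne k hk
  · intro k hk
    rw [hP.gs_eq k hk]
    exact hB.gsle k hk
  · intro b hb
    obtain ⟨i, hi, rfl⟩ := List.mem_iff_getElem.1 hb
    rw [List.length_map, hP.len] at hi
    rw [← List.getD_eq_getElem _ [] , getD_map_fst]
    exact hP.norm_le' hB le_rfl hi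

theorem PInv.lat_eq (hB : BInv m n x B) {P : List (List ℤ × List ℚ)} (hP : PInv m B n P) :
    lat m (P.map Prod.fst) = lat m B := by
  rw [lat_eq_pre, lat_eq_pre, List.length_map, hP.len, hB.len]
  refine pre_congr (fun i hi => ?_)
  rw [getD_map_fst]
  exact hP.comb i hi

theorem PInv.gd_eq {P : List (List ℤ × List ℚ)} (hP : PInv m B n P) :
    ∀ k ≤ n, gd (vs m (P.map Prod.fst)) k = gd (vs m B) k := by
  intro k hk
  rw [gd_eq_prod, gd_eq_prod]
  refine Finset.prod_congr rfl (fun i hi => ?_)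
  rw [Finset.mem_range] at hi
  rw [hP.gs_eq i (by omega)]

/-! ### the exchange -/

theorem eq_split {i : ℕ} (h : i + 1 < B.length) :
    B = B.take i ++ [B.getD i [], B.getD (i + 1) []] ++ B.drop (i + 2) := by
  conv_lhs => rw [← List.take_append_drop i B]
  rw [List.append_assoc]
  congr 1
  rw [List.drop_eq_getElem_cons (by omega), List.drop_eq_getElem_cons h,
    List.getD_eq_getElem _ _ (by omega), List.getD_eq_getElem _ _ h]
  rfl

theorem swapAt_perm {i : ℕ} (h : i + 1 < B.length) : (swapAt B i).Perm B := by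
  conv_rhs => rw [eq_split h]
  rw [swapAt]
  exact ((List.Perm.swap _ _ _).append_left _).append_right _

theorem swapAt_length {i : ℕ} (h : i + 1 < B.length) : (swapAt B i).length = B.length :=
  (swapAt_perm h).length_eq

theorem swapAt_getD {i : ℕ} (h : i + 1 < B.length) (j : ℕ) :
    (swapAt B i).getD j [] = B.getD (Equiv.swap i (i + 1) j) [] := by
  have hl : (B.take i).length = i := by rw [List.length_take]; omega
  rcases lt_trichotomy j i with hj | hj | hj
  · rw [Equiv.swap_apply_of_ne_of_ne (by omega) (by omega), swapAt, List.append_assoc,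
      List.getD_append _ _ _ _ (by omega), List.getD_eq_getElem _ _ (by omega),
      List.getD_eq_getElem _ _ (by omega), List.getElem_take]
  · subst hj
    rw [Equiv.swap_apply_left, swapAt, List.append_assoc, List.getD_append_right _ _ _ _ (by omega),
      hl, Nat.sub_self]
    rfl
  · by_cases hj2 : j = i + 1
    · subst hj2
      rw [Equiv.swap_apply_right, swapAt, List.append_assoc,
        List.getD_append_right _ _ _ _ (by omega), hl]
      have : i + 1 - i = 1 := by omega
      rw [this]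
      rfl
    · rw [Equiv.swap_apply_of_ne_of_ne (by omega) (by omega), swapAt,
        List.getD_append_right _ _ _ _ (by
          rw [List.length_append, hl]; simp only [List.length_cons, List.length_nil]; omega)]
      have e : j - (B.take i ++ [B.getD (i + 1) [], B.getD i []]).length = j - (i + 2) := by
        rw [List.length_append, hl]; simp
      rw [e]
      by_cases hjB : j < B.length
      · rw [List.getD_eq_getElem _ _ (by rw [List.length_drop]; omega),
          List.getD_eq_getElem _ _ hjB, List.getElem_drop]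
        congr 1
        omega
      · rw [List.getD_eq_default _ _ (by rw [List.length_drop]; omega),
          List.getD_eq_default _ _ (by omega)]

theorem vs_swapAt {i : ℕ} (h : i + 1 < B.length) :
    vs m (swapAt B i) = vs m B ∘ Equiv.swap i (i + 1) := by
  funext j
  rw [vs, swapAt_getD h]
  rfl

theorem lat_swapAt {i : ℕ} (h : i + 1 < B.length) : lat m (swapAt B i) = lat m B := by
  rw [lat, lat]
  congr 1
  ext v
  simp only [Set.mem_setOf_eq, (swapAt_perm h).mem_iff]

theorem gd_succ {V : Type*} [NormedAddCommGroup V] [InnerProductSpace ℝ V] (v : ℕ → V) (k : ℕ) :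
    gd v (k + 1) = gd v k * ‖gs v k‖ ^ 2 := by
  rw [gd_eq_prod, gd_eq_prod, Finset.prod_range_succ]

/-- the coefficient of the projection of the vector `i + 1` -/
noncomputable def mu (m : ℕ) (B : List (List ℤ)) (i : ℕ) : ℝ :=
  ⟪vs m B (i + 1), gs (vs m B) i⟫ / ⟪gs (vs m B) i, gs (vs m B) i⟫

theorem BInv.swap (hB : BInv m n x B) {i : ℕ} (hi : i + 1 < n)
    (hbad : ‖gs (vs m B) (i + 1)‖ ^ 2 + mu m B i ^ 2 * ‖gs (vs m B) i‖ ^ 2 ≤
      3 / 4 * ‖gs (vs m B) i‖ ^ 2) :
    BInv m n x (swapAt B i) ∧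
    gd (vs m (swapAt B i)) (i + 1) ≤ 3 / 4 * gd (vs m B) (i + 1) ∧
    ∀ k, k ≠ i + 1 → gd (vs m (swapAt B i)) k = gd (vs m B) k := by
  have hiB : i + 1 < B.length := by rw [hB.len]; exact hi
  set v := vs m B with hv
  set v' := vs m (swapAt B i) with hv'
  have hvv : v' = v ∘ Equiv.swap i (i + 1) := vs_swapAt hiB
  have hgd : ∀ k, k ≠ i + 1 → gd v' k = gd v k := by
    intro k hk
    rw [hvv]
    exact gd_swap v i (by omega)
  have hA := hB.ne i (by omega)
  have hC := hB.ne (i + 1) hi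
  rw [← hv] at hA hC
  have hA2 : 0 < ‖gs v i‖ ^ 2 := by positivity
  have hC2 : 0 < ‖gs v (i + 1)‖ ^ 2 := by positivity
  have hA' : ‖gs v' i‖ ^ 2 = ‖gs v (i + 1)‖ ^ 2 + mu m B i ^ 2 * ‖gs v i‖ ^ 2 := by
    rw [hvv, mu, ← hv]
    exact gs_swap v i hA
  have hpos : ∀ k ≤ n, 0 < gd v k := fun k hk => hB.gd_pos hk
  have hgdi : gd v' i = gd v i := hgd i (by omega)
  have hgd1 : gd v' (i + 1) = gd v i * ‖gs v' i‖ ^ 2 := by rw [gd_succ, hgdi]
  have hgd2 : gd v i * ‖gs v' i‖ ^ 2 * ‖gs v' (i + 1)‖ ^ 2 =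
      gd v i * ‖gs v i‖ ^ 2 * ‖gs v (i + 1)‖ ^ 2 := by
    rw [← hgd1, ← gd_succ v i, ← gd_succ v (i + 1), ← gd_succ v' (i + 1)]
    exact hgd (i + 2) (by omega)
  have hgi := hpos i (by omega)
  have hAC : ‖gs v' i‖ ^ 2 * ‖gs v' (i + 1)‖ ^ 2 = ‖gs v i‖ ^ 2 * ‖gs v (i + 1)‖ ^ 2 := by
    have h1 : gd v i * (‖gs v' i‖ ^ 2 * ‖gs v' (i + 1)‖ ^ 2) =
        gd v i * (‖gs v i‖ ^ 2 * ‖gs v (i + 1)‖ ^ 2) := by
      rw [← mul_assoc, ← mul_assoc]; exact hgd2
    exact mul_left_cancel₀ hgi.ne' h1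
  have hother : ∀ k, k < n → k ≠ i → k ≠ i + 1 → ‖gs v' k‖ ^ 2 = ‖gs v k‖ ^ 2 := by
    intro k hk h1 h2
    have h3 := hgd (k + 1) (by omega)
    rw [gd_succ, gd_succ, hgd k h2] at h3
    exact mul_left_cancel₀ (hpos k (by omega)).ne' h3
  have hle1 : ‖gs v (i + 1)‖ ^ 2 ≤ ‖gs v' i‖ ^ 2 := by
    rw [hA']
    have : 0 ≤ mu m B i ^ 2 * ‖gs v i‖ ^ 2 := by positivity
    linarith
  have hle2 : ‖gs v' (i + 1)‖ ^ 2 ≤ ‖gs v i‖ ^ 2 := by
    have h1 : ‖gs v (i + 1)‖ ^ 2 * ‖gs v' (i + 1)‖ ^ 2 ≤
        ‖gs v (i + 1)‖ ^ 2 * ‖gs v i‖ ^ 2 := by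
      calc ‖gs v (i + 1)‖ ^ 2 * ‖gs v' (i + 1)‖ ^ 2 ≤ ‖gs v' i‖ ^ 2 * ‖gs v' (i + 1)‖ ^ 2 :=
            mul_le_mul_of_nonneg_right hle1 (by positivity)
        _ = ‖gs v (i + 1)‖ ^ 2 * ‖gs v i‖ ^ 2 := by rw [hAC]; ring
    exact le_of_mul_le_mul_left h1 hC2
  refine ⟨⟨?_, ?_, ?_, ?_, ?_⟩, ?_, hgd⟩
  · rw [swapAt_length hiB, hB.len]
  · intro b hb
    exact hB.lenb b ((swapAt_perm hiB).mem_iff.1 hb)
  · intro k hk
    rw [← hv']
    by_cases h1 : k = i
    · subst h1
      intro h0
      rw [h0] at hle1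
      simp only [norm_zero] at hle1
      nlinarith
    · by_cases h2 : k = i + 1
      · subst h2
        intro h0
        rw [h0] at hAC
        simp only [norm_zero] at hAC
        have : 0 < ‖gs v i‖ ^ 2 * ‖gs v (i + 1)‖ ^ 2 := by positivity
        nlinarith
      · intro h0
        have h3 := hother k hk h1 h2
        rw [h0] at h3
        have h4 := hB.ne k hk
        rw [← hv] at h4
        have h5 : 0 < ‖gs v k‖ ^ 2 := by positivity
        simp only [norm_zero] at h3
        nlinarith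
  · intro k hk
    rw [← hv']
    by_cases h1 : k = i
    · subst h1
      rw [hA']
      have := hB.gsle k (by omega)
      rw [← hv] at this
      linarith
    · by_cases h2 : k = i + 1
      · subst h2
        have := hB.gsle i (by omega)
        rw [← hv] at this
        linarith
      · rw [hother k hk h1 h2]
        exact hB.gsle k hk
  · intro b hb
    exact hB.le b ((swapAt_perm hiB).mem_iff.1 hb)
  · rw [hgd1, gd_succ v i, hA']
    calc gd v i * (‖gs v (i + 1)‖ ^ 2 + mu m B i ^ 2 * ‖gs v i‖ ^ 2) ≤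
          gd v i * (3 / 4 * ‖gs v i‖ ^ 2) := mul_le_mul_of_nonneg_left hbad hgi.le
      _ = 3 / 4 * (gd v i * ‖gs v i‖ ^ 2) := by ring

/-! ### the potential -/

/-- the product of the Gram determinants -/
noncomputable def pot (m n : ℕ) (B : List (List ℤ)) : ℝ :=
  ∏ k ∈ Finset.range n, gd (vs m B) (k + 1)

theorem BInv.pot_ge (hB : BInv m n x B) : 1 ≤ pot m n B := by
  rw [pot]
  have : ∏ k ∈ Finset.range n, (1 : ℝ) ≤ ∏ k ∈ Finset.range n, gd (vs m B) (k + 1) :=
    Finset.prod_le_prod (fun _ _ => zero_le_one)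
      (fun k hk => hB.gd_ge (by rw [Finset.mem_range] at hk; omega))
  simpa using this

theorem BInv.pot_le (hB : BInv m n x B) : pot m n B ≤ 2 ^ (x * n * n) := by
  rw [pot, pow_mul]
  calc ∏ k ∈ Finset.range n, gd (vs m B) (k + 1) ≤ ∏ k ∈ Finset.range n, (2 : ℝ) ^ (x * n) := by
        refine Finset.prod_le_prod (fun k hk => ?_) (fun k hk => ?_)
        · rw [Finset.mem_range] at hk
          exact (hB.gd_pos (by omega)).le
        · rw [Finset.mem_range] at hk
          exact (hB.gd_le (k := k + 1) (by omega)).trans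
            (pow_le_pow_right₀ (by norm_num) (Nat.mul_le_mul_left _ (by omega)))
    _ = (2 ^ (x * n)) ^ n := by rw [Finset.prod_const, Finset.card_range]

theorem PInv.pot_eq {P : List (List ℤ × List ℚ)} (hP : PInv m B n P) :
    pot m n (P.map Prod.fst) = pot m n B := by
  rw [pot, pot]
  refine Finset.prod_congr rfl (fun k hk => ?_)
  rw [Finset.mem_range] at hk
  exact hP.gd_eq (k + 1) (by omega)

theorem BInv.pot_swap (hB : BInv m n x B) {i : ℕ} (hi : i + 1 < n)
    (hbad : ‖gs (vs m B) (i + 1)‖ ^ 2 + mu m B i ^ 2 * ‖gs (vs m B) i‖ ^ 2 ≤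
      3 / 4 * ‖gs (vs m B) i‖ ^ 2) : pot m n (swapAt B i) ≤ 3 / 4 * pot m n B := by
  obtain ⟨-, h2, h3⟩ := hB.swap hi hbad
  have hmem : i ∈ Finset.range n := Finset.mem_range.2 (by omega)
  rw [pot, pot, ← Finset.mul_prod_erase _ _ hmem, ← Finset.mul_prod_erase _ _ hmem]
  have h4 : ∏ k ∈ (Finset.range n).erase i, gd (vs m (swapAt B i)) (k + 1) =
      ∏ k ∈ (Finset.range n).erase i, gd (vs m B) (k + 1) := by
    refine Finset.prod_congr rfl (fun k hk => ?_)
    rw [Finset.mem_erase] at hk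
    exact h3 (k + 1) (by omega)
  rw [h4, ← mul_assoc]
  refine mul_le_mul_of_nonneg_right h2 (Finset.prod_nonneg (fun k hk => ?_))
  rw [Finset.mem_erase, Finset.mem_range] at hk
  exact (hB.gd_pos (by omega)).le

end Pool.Agent.Helper78.UF
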