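import Pool.Agent.Helper78.UF.Params
import Pool.Agent.LinAlg.Height

/-!
# Lists as vectors; clamped folds; sizes
-/

set_option autoImplicit false

namespace Pool.Agent.Helper78.UF

open Pool.Agent.PolyTime Pool.Agent.LinAlg
open scoped RealInnerProductSpace

/-! ### clamped folds -/

section
variable {β σ : Type} [PEnc σ]

theorem clamp_of_le {K : ℕ} {d x : σ} (h : size x ≤ K) : clamp K d x = x := by
  simp [clamp, h]

theorem foldlC_inv {K : ℕ} {d : σ} {h : σ → β → σ} {s : σ} {l : List β} (Inv : ℕ → σ → Prop)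
    (h0 : Inv 0 s)
    (hstep : ∀ (i : ℕ) (hi : i < l.length) (s : σ), Inv i s → Inv (i + 1) (h s l[i]))
    (hsize : ∀ (i : ℕ) (s : σ), i ≤ l.length → Inv i s → size s ≤ K) :
    Inv l.length (foldlC K d h s l) := by
  have key : ∀ k ≤ l.length, Inv k ((l.take k).foldl (fun s b => clamp K d (h s b)) s) := by
    intro k
    induction k with
    | zero => intro _; simpa using h0
    | succ k ih =>
      intro hk
      have h1 := ih (by omega)
      have h2 : l.take (k + 1) = l.take k ++ [l[k]] := by
        rw [List.take_succ_eq_append_getElem]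
      rw [h2, List.foldl_append]
      simp only [List.foldl_cons, List.foldl_nil]
      have h3 := hstep k (by omega) _ h1
      rw [clamp_of_le (hsize (k + 1) _ hk h3)]
      exact h3
  have := key l.length le_rfl
  rwa [List.take_length] at this

theorem iterC_inv {K : ℕ} {d : σ} {f : σ → σ} {s : σ} (Inv : ℕ → σ → Prop) (h0 : Inv 0 s)
    (hstep : ∀ (i : ℕ) (s : σ), Inv i s → Inv (i + 1) (f s))
    (hsize : ∀ (i : ℕ) (s : σ), Inv i s → size s ≤ K) (n : ℕ) : Inv n (iterC K d f n s) := by
  unfold iterC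
  induction n with
  | zero => simpa using h0
  | succ n ih =>
    rw [Function.iterate_succ_apply']
    have h3 := hstep n _ ih
    rw [clamp_of_le (hsize (n + 1) _ h3)]
    exact h3

end

/-! ### lists as vectors -/

theorem zipWith_getD {α β γ : Type} (f : α → β → γ) {u : List α} {v : List β} {i : ℕ}
    (hu : i < u.length) (hv : i < v.length) (a : α) (b : β) (c : γ) :
    (List.zipWith f u v).getD i c = f (u.getD i a) (v.getD i b) := by
  have h : i < (List.zipWith f u v).length := by rw [List.length_zipWith]; omega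
  rw [List.getD_eq_getElem _ _ h, List.getD_eq_getElem _ _ hu, List.getD_eq_getElem _ _ hv,
    List.getElem_zipWith]

theorem sum_zipWith_eq {α β : Type} (f : α → β → ℝ) (u : List α) (v : List β) {m : ℕ}
    (hu : u.length = m) (hv : v.length = m) (a : α) (b : β) :
    (List.zipWith f u v).sum = ∑ i : Fin m, f (u.getD i a) (v.getD i b) := by
  induction m generalizing u v with
  | zero =>
    rw [List.length_eq_zero_iff] at hu
    simp [hu]
  | succ m ih =>
    obtain ⟨x, u, rfl⟩ : ∃ x u', u = x :: u' := by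
      cases u with
      | nil => simp at hu
      | cons x u => exact ⟨x, u, rfl⟩
    obtain ⟨y, v, rfl⟩ : ∃ y v', v = y :: v' := by
      cases v with
      | nil => simp at hv
      | cons y v => exact ⟨y, v, rfl⟩
    rw [List.zipWith_cons_cons, List.sum_cons, Fin.sum_univ_succ,
      ih u v (by simpa using hu) (by simpa using hv)]
    simp

theorem evec_apply (m : ℕ) (l : List ℤ) (i : Fin m) : evec m l i = ((l.getD i 0 : ℤ) : ℝ) := rfl

theorem qvec_apply (m : ℕ) (l : List ℚ) (i : Fin m) : qvec m l i = ((l.getD i 0 : ℚ) : ℝ) := rfl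

theorem inner_eq {m : ℕ} (x y : EuclideanSpace ℝ (Fin m)) : ⟪x, y⟫ = ∑ i, x i * y i := by
  simp [PiLp.inner_apply, mul_comm]

theorem dotZ_eq {m : ℕ} {u v : List ℤ} (hu : u.length = m) (hv : v.length = m) :
    ((dotZ u v : ℤ) : ℝ) = ⟪evec m u, evec m v⟫ := by
  rw [inner_eq]
  simp only [evec_apply]
  rw [← sum_zipWith_eq (fun x y : ℤ => (x : ℝ) * y) u v hu hv 0 0, dotZ]
  clear hu hv
  induction u generalizing v with
  | nil => simp
  | cons a u ih =>
    cases v with
    | nil => simp
    | cons b v =>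
      rw [List.zipWith_cons_cons, List.zipWith_cons_cons, List.sum_cons, List.sum_cons, ← ih,
        Int.cast_add, Int.cast_mul]

theorem dotQ_eq {m : ℕ} {u v : List ℚ} (hu : u.length = m) (hv : v.length = m) :
    ((dotQ u v : ℚ) : ℝ) = ⟪qvec m u, qvec m v⟫ := by
  rw [inner_eq]
  simp only [qvec_apply]
  rw [← sum_zipWith_eq (fun x y : ℚ => (x : ℝ) * y) u v hu hv 0 0, dotQ]
  clear hu hv
  induction u generalizing v with
  | nil => simp
  | cons a u ih =>
    cases v with
    | nil => simp
    | cons b v =>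
      rw [List.zipWith_cons_cons, List.zipWith_cons_cons, List.sum_cons, List.sum_cons, ← ih,
        Rat.cast_add, Rat.cast_mul]

theorem length_toQ (u : List ℤ) : (toQ u).length = u.length := by rw [toQ, List.length_map]

theorem qvec_toQ (m : ℕ) (u : List ℤ) : qvec m (toQ u) = evec m u := by
  ext i
  rw [qvec_apply, evec_apply, toQ]
  by_cases h : (i : ℕ) < u.length
  · rw [List.getD_eq_getElem _ _ (by rwa [List.length_map]), List.getD_eq_getElem _ _ h,
      List.getElem_map]
    push_cast
    rfl
  · rw [List.getD_eq_default _ _ (by rw [List.length_map]; omega),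
      List.getD_eq_default _ _ (by omega)]
    simp

theorem length_subZ {v u : List ℤ} {r : ℤ} {m : ℕ} (hv : v.length = m) (hu : u.length = m) :
    (subZ v r u).length = m := by
  rw [subZ, List.length_zipWith, hv, hu, min_self]

theorem length_subQ {v u : List ℚ} {r : ℚ} {m : ℕ} (hv : v.length = m) (hu : u.length = m) :
    (subQ v r u).length = m := by
  rw [subQ, List.length_zipWith, hv, hu, min_self]

theorem evec_subZ {m : ℕ} {v u : List ℤ} (r : ℤ) (hv : v.length = m) (hu : u.length = m) :
    evec m (subZ v r u) = evec m v - (r : ℝ) • evec m u := by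
  ext i
  rw [evec_apply, subZ, zipWith_getD _ (by omega) (by omega) (0 : ℤ) (0 : ℤ)]
  simp [evec_apply]

theorem qvec_subQ {m : ℕ} {v u : List ℚ} (r : ℚ) (hv : v.length = m) (hu : u.length = m) :
    qvec m (subQ v r u) = qvec m v - (r : ℝ) • qvec m u := by
  ext i
  rw [qvec_apply, subQ, zipWith_getD _ (by omega) (by omega) (0 : ℚ) (0 : ℚ)]
  simp [qvec_apply]

theorem zvec_subZ {m : ℕ} {v u : List ℤ} (r : ℤ) (hv : v.length = m) (hu : u.length = m) :
    zvec m (subZ v r u) = zvec m v - r • zvec m u := by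
  funext i
  simp only [zvec]
  rw [subZ, zipWith_getD _ (by omega) (by omega) (0 : ℤ) (0 : ℤ)]
  simp [zvec]

theorem coef_eq {m : ℕ} {v c : List ℚ} (hv : v.length = m) (hc : c.length = m) :
    ((coef v c : ℚ) : ℝ) = ⟪qvec m v, qvec m c⟫ / ⟪qvec m c, qvec m c⟫ := by
  rw [coef]
  push_cast
  rw [dotQ_eq hv hc, dotQ_eq hc hc]

theorem rnd_le (q : ℚ) : |q - rnd q| ≤ 1 / 2 := by
  have hd : (0 : ℚ) < q.den := by exact_mod_cast q.den_pos
  have key : ∀ a : ℕ, |(a : ℚ) / q.den - (((2 * a + q.den) / (2 * q.den) : ℕ) : ℚ)| ≤ 1 / 2 := by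
    intro a
    set t := (2 * a + q.den) / (2 * q.den) with ht
    have h1 : t * (2 * q.den) ≤ 2 * a + q.den := Nat.div_mul_le_self _ _
    have h2 : 2 * a + q.den < (t + 1) * (2 * q.den) := by
      rw [ht]
      have := Nat.lt_div_mul_add (a := 2 * a + q.den) (b := 2 * q.den)
        (by have := q.den_pos; omega)
      linarith
    have h1' : (t : ℚ) * (2 * q.den) ≤ 2 * a + q.den := by exact_mod_cast h1
    have h2' : (2 : ℚ) * a + q.den < (t + 1) * (2 * q.den) := by exact_mod_cast h2
    rw [abs_le]
    constructor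
    · rw [neg_le_sub_iff_le_add, ← sub_le_iff_le_add]
      rw [le_div_iff₀ hd]
      linarith
    · rw [sub_le_iff_le_add, div_le_iff₀ hd]
      linarith
  unfold rnd
  generalize hN : (2 * q.num.natAbs + q.den) / (2 * q.den) = N
  have h4 := key q.num.natAbs
  rw [hN] at h4
  by_cases h : q.num < 0
  · simp only [h, decide_true, cond_true]
    have h3 : (q.num : ℚ) = -((q.num.natAbs : ℕ) : ℚ) := by
      have : q.num = -((q.num.natAbs : ℕ) : ℤ) := by omega
      exact_mod_cast this
    have h5 : q = -((q.num.natAbs : ℕ) : ℚ) / q.den := by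
      rw [← h3]; exact (Rat.num_div_den q).symm
    have h6 : q - ((-(N : ℤ) : ℤ) : ℚ) = -((q.num.natAbs : ℚ) / q.den - (N : ℚ)) := by
      push_cast
      linear_combination h5
    rw [h6, abs_neg]
    exact h4
  · simp only [h, decide_false, cond_false]
    have h3 : (q.num : ℚ) = ((q.num.natAbs : ℕ) : ℚ) := by
      have : q.num = ((q.num.natAbs : ℕ) : ℤ) := by omega
      rw [← Int.cast_natCast, ← this]
    have h5 : q = ((q.num.natAbs : ℕ) : ℚ) / q.den := by
      rw [← h3]; exact (Rat.num_div_den q).symm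
    have h6 : q - (((N : ℤ) : ℤ) : ℚ) = ((q.num.natAbs : ℚ) / q.den - (N : ℚ)) := by
      push_cast
      linear_combination h5
    rw [h6]
    exact h4

/-! ### sizes -/

theorem size_int_le {z : ℤ} {p : ℕ} (h : z.natAbs < 2 ^ p) : size z ≤ p + 3 := by
  rw [size_int]
  have := size_nat_le.2 h
  omega

theorem size_ints_le {l : List ℤ} {m p : ℕ} (hm : l.length = m)
    (h : ∀ z ∈ l, z.natAbs < 2 ^ p) : size l ≤ m * (2 * (p + 3) + 1) := by
  rw [← hm]
  exact size_le_of_forall (fun z hz => size_int_le (h z hz))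

theorem size_rats_le {l : List ℚ} {m p : ℕ} (hm : l.length = m)
    (h : ∀ z ∈ l, hb z ≤ p) : size l ≤ m * (2 * (3 * p + 7) + 1) := by
  rw [← hm]
  exact size_le_of_forall (fun z hz => (size_rat_le z).trans (by have := h z hz; omega))

end Pool.Agent.Helper78.UF
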